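import Pool.Agent.Helper48.GH.GalDefs
import Pool.Agent.Helper98.GH.Blk

/-!
Project GP (strengthening of project GH, MP_b8862a_ag): definitions.
-/

set_option linter.unusedSectionVars false

open Matrix Module

namespace GH

open MH

/-- full type, with the size that the pair lemma needs -/
def TyN {n : Type*} [Fintype n] [DecidableEq n] (L : Submodule ℂ (Matrix n n ℂ)) : Prop :=
  Ty L ∧ ((∀ x : Matrix n n ℂ, x.trace = 0 → x ∈ L) ∨ 9 ≤ Fintype.card n)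

theorem TyN.tyF {n : Type*} [Fintype n] [DecidableEq n] {L : Submodule ℂ (Matrix n n ℂ)} (h : TyN L) : TyF L :=
  ⟨h.1, h.2.imp id fun h9 => by omega⟩

end GH

namespace MH

variable {n : Type*} [Fintype n] [DecidableEq n]

/-- The `ℓ-adic` data without Hodge-Tate decompositions: `Γ` consists of similitudes, its subgroups of finite index are
semisimple, some of them commute with the endomorphisms of the Hodge structure, what commutes with one of them is in the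
span of the endomorphisms, and what spans a line stable under one of them spans a line stable under the Mumford-Tate
group. -/
structure IsGalU (w : ℤ) (Q : Matrix n n ℚ) (S : Finset ℤ) (P : ℤ → Matrix n n ℂ) (Γ : Subgroup (GL n ℂ)) : Prop where
  sim : ∀ g ∈ Γ, ∃ c : ℂ, (g : Matrix n n ℂ)ᵀ * toC Q * (g : Matrix n n ℂ) = c • toC Q
  ss : ∀ Γ' : Subgroup (GL n ℂ), Γ' ≤ Γ → Γ'.relIndex Γ ≠ 0 → ∀ W : Submodule ℂ (n → ℂ),
    (∀ g ∈ Γ', ∀ w ∈ W, (g : Matrix n n ℂ) *ᵥ w ∈ W) →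
    ∃ W' : Submodule ℂ (n → ℂ), (∀ g ∈ Γ', ∀ w ∈ W', (g : Matrix n n ℂ) *ᵥ w ∈ W') ∧ IsCompl W W'
  comm : ∃ Γ' : Subgroup (GL n ℂ), Γ' ≤ Γ ∧ Γ'.relIndex Γ ≠ 0 ∧ ∀ g ∈ Γ', ∀ x ∈ EC P,
    (g : Matrix n n ℂ) * x = x * (g : Matrix n n ℂ)
  cent : ∀ Γ' : Subgroup (GL n ℂ), Γ' ≤ Γ → Γ'.relIndex Γ ≠ 0 → ∀ T : Matrix n n ℂ,
    (∀ g ∈ Γ', (g : Matrix n n ℂ) * T = T * (g : Matrix n n ℂ)) → T ∈ EC P
  semi : ∀ Γ' : Subgroup (GL n ℂ), Γ' ≤ Γ → Γ'.relIndex Γ ≠ 0 → ∀ T : Matrix n n ℂ,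
    (∀ g ∈ Γ', ∃ c : ℂ, (g : Matrix n n ℂ) * T = c • (T * (g : Matrix n n ℂ))) → SI S P T

end MH
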