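import Pool.Agent.Helper43.GP.ToU

/-!
Project GP (MP_b8862a_ag): the main theorem, for groups of complex matrices, from the types of the blocks.
-/

set_option linter.unusedSectionVars false
set_option linter.unusedVariables false

open Matrix GH

namespace MH

variable {n : Type*} [Fintype n] [DecidableEq n]
variable {w : ℤ} {Q : Matrix n n ℚ} {S : Finset ℤ} {P : ℤ → Matrix n n ℂ} {Γ : Subgroup (GL n ℂ)}

/-- the main theorem, from the types of the blocks -/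
theorem gp_of_ty43 (H : IsHW w Q S P) (hdom : ∀ e, IsBlk P e → DomN w Q S P e)
    (hty : ∀ f, IsBlk P f → 2 ≤ f.rank → TyBN Q S P f) :
    (∀ g : GL n ℂ, InD Q S P (g : Matrix n n ℂ) → g ∈ MT S P) ∧
    (∀ g ∈ MT S P, ∀ h ∈ MT S P, InD Q S P ((g * h * g⁻¹ * h⁻¹ : GL n ℂ) : Matrix n n ℂ)) ∧
    ∀ Γ : Subgroup (GL n ℂ), IsGalN w Q S P Γ →
      (∃ D : Subgroup (GL n ℚ), IsMonB Q S P D ∧ mapC D ≤ Γ) ∨
        ((∀ e, IsBlk P e → e.rank ≠ 1 → ∃ σ : ℂ ≃+* ℂ, ∀ d : ℕ, (∀ p, d ∣ (e * (P p).map σ).rank) → d = 1) ∧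
          IsTateN S P Γ) →
      (∀ (a b : ℕ) (t : (Fin a ⊕ Fin b → n) → ℂ), IsTateTensor Γ a b t → MTfix S P a b t) ∧
        (IsAbel w Q S P Γ → ∀ (a b : ℕ) (t : (Fin a ⊕ Fin b → n) → ℂ), MTfix S P a b t → IsTateTensor Γ a b t) := by
  obtain ⟨B, Bi, Qi, h1, h2, -, -, hM⟩ := H.exists_basis
  refine ⟨fun g hg => H.InD_MT43 hty hg, fun g hg h hh => H.comm_InD hg hh, fun Γ G hAB => ⟨?_, fun hA a b t hm =>
    G.tate_ge H hA (fun g hg => H.InD_MT43 hty hg) hm⟩⟩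
  intro a b t ht
  refine G.tate_le H ht ?_
  rcases hAB with ⟨D, M, hle⟩ | ⟨hgcd, hT⟩
  · intro g hg
    by_cases hall : ∀ e, IsBlk P e → e.rank = 1
    · have h3 := InD_one43 H hall hg
      have h4 : g = 1 := Units.ext h3
      rw [h4]
      have h5 : slot a b ((1 : GL n ℂ) : Matrix n n ℂ) (((1 : GL n ℂ)⁻¹ : GL n ℂ) : Matrix n n ℂ) = fun _ => 1 := by
        funext k
        rcases k with k | k
        · rfl
        · simp [slot]
      rw [h5, actF_one]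
    push Not at hall
    obtain ⟨e0, he0, hr0⟩ := hall
    have hsd := G.semiD hle
    obtain ⟨ι, i1, e, e1, -, e3⟩ := H.exists_blks43
    refine H.InD_fix (fun X hX1 hX2 hX3 => ?_) hg
    have hX : X ∈ LG (mapC D) := IsMon.contains H (fun Y hY => H.LH_of_com43 h1 h2 hM hty hY.com hY.skew hY.tr)
      (fun e he hr => (hty e he hr).tyB) (M.mon he0 hr0) hsd
      (fun e he hr => nonscalar_of_group (M.big e he (by omega))) ⟨ι, i1, e, e1, e3⟩ ⟨hX1, hX2, hX3⟩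
    exact hX a b t (tate_mono hle ht)
  · intro g hg
    exact (G.toU H hT).tate_fix H (G.tyN43 H hT hdom hgcd) ht hg

/-- **The main theorem** for a group of complex matrices. -/
theorem gp_main43 (H : IsHW w Q S P) (hdom : ∀ e, IsBlk P e → DomN w Q S P e) :
    (∀ g : GL n ℂ, InD Q S P (g : Matrix n n ℂ) → g ∈ MT S P) ∧
    (∀ g ∈ MT S P, ∀ h ∈ MT S P, InD Q S P ((g * h * g⁻¹ * h⁻¹ : GL n ℂ) : Matrix n n ℂ)) ∧
    ∀ Γ : Subgroup (GL n ℂ), IsGalN w Q S P Γ →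
      (∃ D : Subgroup (GL n ℚ), IsMonB Q S P D ∧ mapC D ≤ Γ) ∨
        ((∀ e, IsBlk P e → e.rank ≠ 1 → ∃ σ : ℂ ≃+* ℂ, ∀ d : ℕ, (∀ p, d ∣ (e * (P p).map σ).rank) → d = 1) ∧
          IsTateN S P Γ) →
      (∀ (a b : ℕ) (t : (Fin a ⊕ Fin b → n) → ℂ), IsTateTensor Γ a b t → MTfix S P a b t) ∧
        (IsAbel w Q S P Γ → ∀ (a b : ℕ) (t : (Fin a ⊕ Fin b → n) → ℂ), MTfix S P a b t → IsTateTensor Γ a b t) :=
  gp_of_ty43 H hdom fun f hf hr => H.tyBN_all hdom hf hr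

end MH
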