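import Pool.Agent.Helper43.GP.DimQ

/-!
Project GP: the centraliser of a Hermitian element for the orthogonal and the symplectic type.
-/

set_option linter.unusedSectionVars false
set_option linter.unusedVariables false

open Matrix Module

namespace GH

open MH

variable {n : Type*} [Fintype n] [DecidableEq n] {L : Submodule ℂ (Matrix n n ℂ)} {h : Matrix n n ℂ}
  {E : ℝ → Matrix n n ℂ} {Λ : Finset ℝ}

/-- the part of trace zero -/
noncomputable def tz43 : Matrix n n ℂ →ₗ[ℂ] Matrix n n ℂ where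
  toFun x := x - (x.trace / (Fintype.card n : ℂ)) • (1 : Matrix n n ℂ)
  map_add' a b := by
    rw [Matrix.trace_add, add_div, add_smul]
    abel
  map_smul' c a := by
    rw [Matrix.trace_smul, smul_eq_mul, mul_div_assoc, RingHom.id_apply, smul_sub, smul_smul]

theorem tz_apply43 (x : Matrix n n ℂ) : tz43 x = x - (x.trace / (Fintype.card n : ℂ)) • (1 : Matrix n n ℂ) := rfl

theorem form_c43 {Q Qi : Matrix n n ℂ} (h1 : Q * Qi = 1) (hn : 0 < Fintype.card n) {x : Matrix n n ℂ} {c : ℂ}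
    (hx : xᵀ * Q + Q * x = c • Q) : c = 2 * (x.trace / (Fintype.card n : ℂ)) := by
  have hn' : (Fintype.card n : ℂ) ≠ 0 := by exact_mod_cast hn.ne'
  have h2 : Qi * Q = 1 := mul_eq_one_comm.1 h1
  have h3 : (xᵀ * Q + Q * x) * Qi = c • (1 : Matrix n n ℂ) := by rw [hx, Matrix.smul_mul, h1]
  have h4 := congrArg Matrix.trace h3
  rw [Matrix.add_mul, Matrix.trace_add, Matrix.mul_assoc, h1, Matrix.mul_one, Matrix.trace_transpose, Matrix.mul_assoc,
    Matrix.trace_mul_comm Q, Matrix.mul_assoc, h2, Matrix.mul_one, Matrix.trace_smul, Matrix.trace_one, smul_eq_mul] at h4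
  field_simp
  linear_combination -h4

theorem tz_skew43 {Q Qi : Matrix n n ℂ} (h1 : Q * Qi = 1) (hn : 0 < Fintype.card n) {x : Matrix n n ℂ} {c : ℂ}
    (hx : xᵀ * Q + Q * x = c • Q) : (tz43 x)ᵀ * Q + Q * tz43 x = 0 := by
  have h2 := form_c43 h1 hn hx
  rw [tz_apply43, Matrix.transpose_sub, Matrix.transpose_smul, Matrix.transpose_one, Matrix.sub_mul, Matrix.mul_sub,
    Matrix.smul_mul, Matrix.mul_smul, Matrix.one_mul, Matrix.mul_one]
  have h3 : xᵀ * Q - (x.trace / (Fintype.card n : ℂ)) • Q + (Q * x - (x.trace / (Fintype.card n : ℂ)) • Q) =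
      (xᵀ * Q + Q * x) - (2 * (x.trace / (Fintype.card n : ℂ))) • Q := by module
  rw [h3, hx, ← h2, sub_self]

theorem rank_sum43 (S : Spec h E Λ) : (E 0).rank + (Pp E Λ).rank + (Qn E Λ).rank = Fintype.card n := by
  classical
  have h0 : E 0 * E 0 = E 0 := by rw [S.mul, if_pos rfl]
  have h1 : Pp E Λ * Pp E Λ = Pp E Λ := S.sum_mul_sum _
  have h2 : Qn E Λ * Qn E Λ = Qn E Λ := S.sum_mul_sum _
  have h3 : (((E 0).rank + (Pp E Λ).rank + (Qn E Λ).rank : ℕ) : ℂ) = (Fintype.card n : ℂ) := by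
    push_cast
    rw [rank_eq_trace h0, rank_eq_trace h1, rank_eq_trace h2, ← Matrix.trace_one (n := n) (R := ℂ), ← S.one_eq,
      Matrix.trace_add, Matrix.trace_add]
    ring
  exact_mod_cast h3

/-- the dimension of the centraliser from above -/
theorem dim_le43 (G : Gr L h E Λ) {Q Qi : Matrix n n ℂ} {ε : ℂ} (hε : ε * ε = 1) (hQ : Qᵀ = ε • Q) (h1 : Q * Qi = 1)
    (h2 : Qi * Q = 1) (hn : 0 < Fintype.card n) (hh : hᵀ * Q + Q * h = 0)
    (hL : ∀ x ∈ L, ∃ c : ℂ, xᵀ * Q + Q * x = c • Q) :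
    (E 0).rank + 2 * (Pp E Λ).rank = Fintype.card n ∧
      finrank ℂ (Ld L h 0) ≤ 1 + finrank ℂ (Te43 ε (Fin (E 0).rank)) + (Pp E Λ).rank ^ 2 := by
  classical
  have S := G.spec
  have hd : IsUnit Q.det := by
    rw [← Matrix.isUnit_iff_isUnit_det]
    exact ⟨⟨Q, Qi, h1, h2⟩, rfl⟩
  have hdt : IsUnit (Qᵀ).det := by rwa [Matrix.det_transpose]
  have h0 : E 0 * E 0 = E 0 := by rw [S.mul, if_pos rfl]
  have hP : Pp E Λ * Pp E Λ = Pp E Λ := S.sum_mul_sum _
  have hQn : Qn E Λ * Qn E Λ = Qn E Λ := S.sum_mul_sum _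
  have hrk : (Qn E Λ).rank = (Pp E Λ).rank := by
    have h3 := pos_eq43 S hh
    have h4 : (Q * Pp E Λ).rank = (Pp E Λ).rank := Matrix.rank_mul_eq_right_of_isUnit_det Q _ hd
    have h5 : ((Qn E Λ)ᵀ * Q).rank = (Qn E Λ)ᵀ.rank := Matrix.rank_mul_eq_left_of_isUnit_det Q _ hd
    rw [← h4, h3, h5, Matrix.rank_transpose]
  have hsum := rank_sum43 S
  obtain ⟨b, W0, V0, a1, a2⟩ := exists_coord48 h0
  obtain ⟨s, W1, V1, b1, b2⟩ := exists_coord48 hP
  obtain ⟨s', W2, V2, c1, c2⟩ := exists_coord48 hQn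
  have eb := coord_rank43 a1 a2
  have es := coord_rank43 b1 b2
  have es' := coord_rank43 c1 c2
  refine ⟨by omega, ?_⟩
  rw [eb, es]
  have hs : s' = s := by omega
  subst hs
  have hT : ∀ x : Ld L h 0, W0ᵀ * (Q * tz43 (x : Matrix n n ℂ)) * W0 ∈ Te43 ε (Fin b) := by
    intro x
    obtain ⟨c, hc⟩ := hL _ x.2.1
    have h3 := Te_of43 hε hQ h1 h2 (tz_skew43 h1 hn hc)
    rw [mem_Te43] at h3 ⊢
    rw [Matrix.transpose_mul, Matrix.transpose_mul, Matrix.transpose_transpose, h3, Matrix.neg_mul, Matrix.mul_neg,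
      Matrix.smul_mul, Matrix.mul_smul, ← Matrix.mul_assoc]
  let Φ : Ld L h 0 →ₗ[ℂ] (ℂ × Te43 ε (Fin b)) × Matrix (Fin s') (Fin s') ℂ :=
    { toFun := fun x => ((Matrix.trace (x : Matrix n n ℂ), ⟨W0ᵀ * (Q * tz43 (x : Matrix n n ℂ)) * W0, hT x⟩),
        W2ᵀ * (Q * tz43 (x : Matrix n n ℂ)) * W1)
      map_add' := fun x y => by
        refine Prod.ext (Prod.ext ?_ (Subtype.ext ?_)) ?_
        · exact Matrix.trace_add _ _
        · change W0ᵀ * (Q * tz43 ((x : Matrix n n ℂ) + (y : Matrix n n ℂ))) * W0 =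
            W0ᵀ * (Q * tz43 (x : Matrix n n ℂ)) * W0 + W0ᵀ * (Q * tz43 (y : Matrix n n ℂ)) * W0
          rw [map_add, Matrix.mul_add, Matrix.mul_add, Matrix.add_mul]
        · change W2ᵀ * (Q * tz43 ((x : Matrix n n ℂ) + (y : Matrix n n ℂ))) * W1 =
            W2ᵀ * (Q * tz43 (x : Matrix n n ℂ)) * W1 + W2ᵀ * (Q * tz43 (y : Matrix n n ℂ)) * W1
          rw [map_add, Matrix.mul_add, Matrix.mul_add, Matrix.add_mul]
      map_smul' := fun c x => by
        refine Prod.ext (Prod.ext ?_ (Subtype.ext ?_)) ?_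
        · exact Matrix.trace_smul _ _
        · change W0ᵀ * (Q * tz43 (c • (x : Matrix n n ℂ))) * W0 = c • (W0ᵀ * (Q * tz43 (x : Matrix n n ℂ)) * W0)
          rw [map_smul, Matrix.mul_smul, Matrix.mul_smul, Matrix.smul_mul]
        · change W2ᵀ * (Q * tz43 (c • (x : Matrix n n ℂ))) * W1 = c • (W2ᵀ * (Q * tz43 (x : Matrix n n ℂ)) * W1)
          rw [map_smul, Matrix.mul_smul, Matrix.mul_smul, Matrix.smul_mul] }
  have hinj : Function.Injective Φ := by
    rw [injective_iff_map_eq_zero]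
    rintro ⟨x, hx⟩ h3
    apply Subtype.ext
    change x = 0
    have t1 : x.trace = 0 := congrArg (fun p => p.1.1) h3
    have t2 : W0ᵀ * (Q * tz43 x) * W0 = 0 := congrArg (fun p => (p.1.2 : Matrix (Fin b) (Fin b) ℂ)) h3
    have t3 : W2ᵀ * (Q * tz43 x) * W1 = 0 := congrArg (fun p => p.2) h3
    have hz : tz43 x = x := by rw [tz_apply43, t1, zero_div, zero_smul, sub_zero]
    obtain ⟨c, hc⟩ := hL _ hx.1
    have hsk := tz_skew43 h1 hn hc
    rw [hz] at t2 t3 hsk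
    have cm : ∀ μ, E μ * x = x * E μ := G.E_comm hx
    have cmP : Pp E Λ * x = x * Pp E Λ := by
      rw [Pp, Finset.sum_mul, Finset.mul_sum]
      exact Finset.sum_congr rfl fun μ _ => cm μ
    have k0 : x * E 0 = 0 := by
      have e1 : (E 0)ᵀ * (Q * x) * E 0 = 0 := by
        calc (E 0)ᵀ * (Q * x) * E 0 = V0ᵀ * (W0ᵀ * (Q * x) * W0) * V0 := by
              rw [← a2, Matrix.transpose_mul]
              simp only [Matrix.mul_assoc]
          _ = 0 := by rw [t2, Matrix.mul_zero, Matrix.zero_mul]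
      rw [← Matrix.mul_assoc, zero_eq43 S hh, Matrix.mul_assoc Q, Matrix.mul_assoc Q, cm 0, Matrix.mul_assoc x, h0] at e1
      calc x * E 0 = Qi * (Q * (x * E 0)) := by rw [← Matrix.mul_assoc, h2, Matrix.one_mul]
        _ = 0 := by rw [e1, Matrix.mul_zero]
    have k1 : x * Pp E Λ = 0 := by
      have e1 : (Qn E Λ)ᵀ * (Q * x) * Pp E Λ = 0 := by
        calc (Qn E Λ)ᵀ * (Q * x) * Pp E Λ = V2ᵀ * (W2ᵀ * (Q * x) * W1) * V1 := by
              rw [← b2, ← c2, Matrix.transpose_mul]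
              simp only [Matrix.mul_assoc]
          _ = 0 := by rw [t3, Matrix.mul_zero, Matrix.zero_mul]
      rw [← Matrix.mul_assoc, ← pos_eq43 S hh, Matrix.mul_assoc Q, Matrix.mul_assoc Q, cmP, Matrix.mul_assoc x, hP] at e1
      calc x * Pp E Λ = Qi * (Q * (x * Pp E Λ)) := by rw [← Matrix.mul_assoc, h2, Matrix.one_mul]
        _ = 0 := by rw [e1, Matrix.mul_zero]
    have k2 : x * Qn E Λ = 0 := by
      have e1 : Q * x * Qn E Λ = 0 := by
        have e2 : Q * x = -(xᵀ * Q) := eq_neg_of_add_eq_zero_right hsk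
        rw [e2, Matrix.neg_mul, Matrix.mul_assoc, neg_eq43 S hh, ← Matrix.mul_assoc, ← Matrix.transpose_mul, cmP, k1,
          Matrix.transpose_zero, Matrix.zero_mul, neg_zero]
      calc x * Qn E Λ = Qi * (Q * x * Qn E Λ) := by
            rw [← Matrix.mul_assoc, ← Matrix.mul_assoc, h2, Matrix.one_mul]
        _ = 0 := by rw [e1, Matrix.mul_zero]
    calc x = x * (Pp E Λ + E 0 + Qn E Λ) := by rw [S.one_eq, Matrix.mul_one]
      _ = 0 := by rw [Matrix.mul_add, Matrix.mul_add, k0, k1, k2, add_zero, add_zero]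
  have h4 := LinearMap.finrank_le_finrank_of_injective hinj
  rw [Module.finrank_prod, Module.finrank_prod, Module.finrank_self, Module.finrank_matrix, Module.finrank_self, mul_one,
    Fintype.card_fin, ← pow_two] at h4
  exact h4

theorem num_so43 {N b s l d tn tb : ℕ} (e1 : b + 2 * s = N) (e2 : d ≤ 1 + tb + s ^ 2) (e3 : tn + 1 ≤ l)
    (hR : l ≤ d + 2 * (N - 1)) (f1 : 2 * tn + N = N ^ 2) (f2 : 2 * tb + b = b ^ 2) (hN : 9 ≤ N) (hs : s ≠ 0) : s = 1 := by
  subst e1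
  have g1 : (b + 2 * s) ^ 2 = b ^ 2 + 4 * b * s + 4 * s ^ 2 := by ring
  have g3 : 4 * b * s + 2 * s ^ 2 + 4 ≤ 4 * b + 10 * s := by omega
  have f4 : s < 5 := by
    by_contra hc
    push Not at hc
    nlinarith
  interval_cases s <;> omega

theorem num_sp43 {N b s l d tn tb : ℕ} (e1 : b + 2 * s = N) (e2 : d ≤ 1 + tb + s ^ 2) (e3 : tn + 1 ≤ l)
    (hR : l ≤ d + 2 * (N - 1)) (f1 : 2 * tn = N ^ 2 + N) (f2 : 2 * tb = b ^ 2 + b) (hN : 9 ≤ N) (hs : s ≠ 0) : s = 1 := by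
  subst e1
  have g1 : (b + 2 * s) ^ 2 = b ^ 2 + 4 * b * s + 4 * s ^ 2 := by ring
  have g3 : 4 * b * s + 2 * s ^ 2 + 4 ≤ 4 * b + 6 * s := by omega
  have f4 : s < 5 := by
    by_contra hc
    push Not at hc
    nlinarith
  interval_cases s <;> omega

/-- a Hermitian element that is skew for the form and has a large centraliser has rank two -/
theorem Gr.big_form43 (G : Gr L h E Λ) {Q Qi : Matrix n n ℂ} {ε : ℂ} (hε : ε = 1 ∨ ε = -1) (hQ : Qᵀ = ε • Q)
    (h1 : Q * Qi = 1) (h2 : Qi * Q = 1) (hn : 9 ≤ Fintype.card n) (hh : hᵀ * Q + Q * h = 0) (one : (1 : Matrix n n ℂ) ∈ L)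
    (hsk : ∀ x : Matrix n n ℂ, xᵀ * Q + Q * x = 0 → x ∈ L) (hL : ∀ x ∈ L, ∃ c : ℂ, xᵀ * Q + Q * x = c • Q)
    (hh0 : h ≠ 0) (hR : finrank ℂ L ≤ finrank ℂ (Ld L h 0) + 2 * (Fintype.card n - 1)) :
    (E 0).rank + 2 = Fintype.card n := by
  classical
  have hεε : ε * ε = 1 := by rcases hε with rfl | rfl <;> norm_num
  obtain ⟨e1, e2⟩ := dim_le43 G hεε hQ h1 h2 (by omega) hh hL
  have hne : Nonempty n := Fintype.card_pos_iff.1 (by omega)
  have e3 := dim_ge43 (n := n) (L := L) hεε hQ h1 h2 one hsk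
  have hs : (Pp E Λ).rank ≠ 0 := by
    intro h3
    apply hh0
    have h4 : (E 0).rank = Fintype.card n := by omega
    have h5 := rank_compl (n := n) (F := E 0) G.E0_E0
    have h6 : (1 - E 0).rank = 0 := by omega
    have h7 : (1 : Matrix n n ℂ) - E 0 = 0 := rank_eq_zero98 h6
    calc h = h * (1 - E 0 + E 0) := by rw [sub_add_cancel, Matrix.mul_one]
      _ = 0 := by rw [h7, zero_add, G.h_E0]
  have hfin : Fintype.card (Fin (E 0).rank) = (E 0).rank := Fintype.card_fin _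
  have h9 : (Pp E Λ).rank = 1 := by
    rcases hε with rfl | rfl
    · have f1 := finrank_Te_one43 n
      have f2 := finrank_Te_one43 (Fin (E 0).rank)
      rw [hfin] at f2
      exact num_so43 e1 e2 e3 hR f1 f2 hn hs
    · have f1 := finrank_Te_neg43 n
      have f2 := finrank_Te_neg43 (Fin (E 0).rank)
      rw [hfin] at f2
      exact num_sp43 e1 e2 e3 hR f1 f2 hn hs
  omega

end GH
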