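import Pool.Agent.Helper43.GP.Nr
import Pool.Agent.Helper14.GH.Orth
import Pool.Agent.Helper48.GH.Fix3

/-!
Project GP: dimensions.
-/

set_option linter.unusedSectionVars false
set_option linter.unusedVariables false

open Matrix Module

namespace GH

open MH

variable {n : Type*} [Fintype n] [DecidableEq n] {L : Submodule ℂ (Matrix n n ℂ)} {h : Matrix n n ℂ}
  {E : ℝ → Matrix n n ℂ} {Λ : Finset ℝ}

/-! ### graphs -/

section graph

variable {m : Type*} [Fintype m] [DecidableEq m] {k : Type*} [Fintype k] [DecidableEq k]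
  {A : Submodule ℂ (Matrix m m ℂ × Matrix k k ℂ)}

theorem fst_dim43 [Nonempty k] (one2 : ((0 : Matrix m m ℂ), (1 : Matrix k k ℂ)) ∈ A) (g : Gra A) :
    finrank ℂ (A.map (LinearMap.fst ℂ (Matrix m m ℂ) (Matrix k k ℂ))) + 1 = finrank ℂ A := by
  have h1 := LinearMap.finrank_range_add_finrank_ker ((LinearMap.fst ℂ (Matrix m m ℂ) (Matrix k k ℂ)).domRestrict A)
  rw [LinearMap.range_domRestrict] at h1
  have h2 : finrank ℂ (LinearMap.ker ((LinearMap.fst ℂ (Matrix m m ℂ) (Matrix k k ℂ)).domRestrict A)) = 1 := by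
    have h3 : LinearMap.ker ((LinearMap.fst ℂ (Matrix m m ℂ) (Matrix k k ℂ)).domRestrict A) =
        Submodule.span ℂ {(⟨_, one2⟩ : A)} := by
      ext ⟨p, hp⟩
      rw [LinearMap.mem_ker, Submodule.mem_span_singleton]
      constructor
      · intro h4
        have h5 : p.1 = 0 := h4
        obtain ⟨c, hc⟩ := (g p hp).1 ⟨0, by rw [h5, zero_smul]⟩
        refine ⟨c, Subtype.ext (Prod.ext ?_ ?_)⟩
        · change c • (0 : Matrix m m ℂ) = p.1
          rw [smul_zero, h5]
        · exact hc.symm
      · rintro ⟨c, hc⟩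
        rw [← hc]
        change c • (0 : Matrix m m ℂ) = 0
        exact smul_zero c
    rw [h3]
    refine finrank_span_singleton fun h4 => ?_
    have h5 : ((0 : Matrix m m ℂ), (1 : Matrix k k ℂ)) = 0 := congrArg Subtype.val h4
    exact one_ne_zero (congrArg Prod.snd h5)
  omega

theorem snd_dim43 [Nonempty m] (one1 : ((1 : Matrix m m ℂ), (0 : Matrix k k ℂ)) ∈ A) (g : Gra A) :
    finrank ℂ (A.map (LinearMap.snd ℂ (Matrix m m ℂ) (Matrix k k ℂ))) + 1 = finrank ℂ A := by
  have h1 := LinearMap.finrank_range_add_finrank_ker ((LinearMap.snd ℂ (Matrix m m ℂ) (Matrix k k ℂ)).domRestrict A)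
  rw [LinearMap.range_domRestrict] at h1
  have h2 : finrank ℂ (LinearMap.ker ((LinearMap.snd ℂ (Matrix m m ℂ) (Matrix k k ℂ)).domRestrict A)) = 1 := by
    have h3 : LinearMap.ker ((LinearMap.snd ℂ (Matrix m m ℂ) (Matrix k k ℂ)).domRestrict A) =
        Submodule.span ℂ {(⟨_, one1⟩ : A)} := by
      ext ⟨p, hp⟩
      rw [LinearMap.mem_ker, Submodule.mem_span_singleton]
      constructor
      · intro h4
        have h5 : p.2 = 0 := h4
        obtain ⟨c, hc⟩ := (g p hp).2 ⟨0, by rw [h5, zero_smul]⟩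
        refine ⟨c, Subtype.ext (Prod.ext ?_ ?_)⟩
        · exact hc.symm
        · change c • (0 : Matrix k k ℂ) = p.2
          rw [smul_zero, h5]
      · rintro ⟨c, hc⟩
        rw [← hc]
        change c • (0 : Matrix k k ℂ) = 0
        exact smul_zero c
    rw [h3]
    refine finrank_span_singleton fun h4 => ?_
    have h5 : ((1 : Matrix m m ℂ), (0 : Matrix k k ℂ)) = 0 := congrArg Subtype.val h4
    exact one_ne_zero (congrArg Prod.fst h5)
  omega

end graph

/-! ### the centraliser in the space of all matrices -/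

/-- the space of matrices that live on the range of an idempotent -/
def Cr43 (F : Matrix n n ℂ) : Submodule ℂ (Matrix n n ℂ) where
  carrier := {x | F * x * F = x}
  add_mem' := by
    intro a b ha hb
    change F * (a + b) * F = a + b
    rw [mul_add, add_mul, show F * a * F = a from ha, show F * b * F = b from hb]
  zero_mem' := by
    change F * 0 * F = 0
    simp
  smul_mem' := by
    intro c a ha
    change F * (c • a) * F = c • a
    rw [mul_smul_comm, smul_mul_assoc, show F * a * F = a from ha]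

theorem coord_rank43 {F : Matrix n n ℂ} {r : ℕ} {W : Matrix n (Fin r) ℂ} {V : Matrix (Fin r) n ℂ} (hVW : V * W = 1)
    (hWV : W * V = F) : F.rank = r := by
  have h0 : F * F = F := by
    rw [← hWV, Matrix.mul_assoc, ← Matrix.mul_assoc V, hVW, Matrix.one_mul]
  have h1 := rank_eq_trace h0
  have h2 : F.trace = (r : ℂ) := by
    rw [← hWV, Matrix.trace_mul_comm, hVW, Matrix.trace_one, Fintype.card_fin]
  rw [h2] at h1
  exact_mod_cast h1

theorem finrank_Cr43 {F : Matrix n n ℂ} (hF : F * F = F) : finrank ℂ (Cr43 F) ≤ F.rank ^ 2 := by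
  obtain ⟨r, W, V, hVW, hWV⟩ := exists_coord48 hF
  rw [coord_rank43 hVW hWV]
  let Φ : Cr43 F →ₗ[ℂ] Matrix (Fin r) (Fin r) ℂ :=
    { toFun := fun x => V * (x : Matrix n n ℂ) * W
      map_add' := fun a b => by
        change V * ((a : Matrix n n ℂ) + (b : Matrix n n ℂ)) * W = _
        rw [Matrix.mul_add, Matrix.add_mul]
      map_smul' := fun c a => by
        change V * (c • (a : Matrix n n ℂ)) * W = _
        rw [Matrix.mul_smul, Matrix.smul_mul]; rfl }
  have hinj : Function.Injective Φ := by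
    rw [injective_iff_map_eq_zero]
    rintro ⟨x, hx⟩ h0
    apply Subtype.ext
    have h1 : V * x * W = 0 := h0
    have h2 : F * x * F = x := hx
    change x = 0
    calc x = F * x * F := h2.symm
      _ = W * (V * x * W) * V := by
          rw [← hWV]
          simp only [Matrix.mul_assoc]
      _ = 0 := by rw [h1, Matrix.mul_zero, Matrix.zero_mul]
  have h4 := LinearMap.finrank_le_finrank_of_injective hinj
  rw [Module.finrank_matrix] at h4
  simpa [pow_two] using h4

/-- the centraliser of a Hermitian matrix -/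
theorem Gr.ld_le43 (G : Gr L h E Λ) : finrank ℂ (Ld L h 0) ≤ ∑ μ ∈ Λ, (E μ).rank ^ 2 := by
  classical
  have S := G.spec
  let Φ : Ld L h 0 →ₗ[ℂ] (∀ μ : Λ, Cr43 (E μ)) :=
    { toFun := fun x μ => ⟨E μ * (x : Matrix n n ℂ) * E μ, by
        change E μ * (E μ * (x : Matrix n n ℂ) * E μ) * E μ = E μ * (x : Matrix n n ℂ) * E μ
        have h1 : E (μ : ℝ) * E μ = E μ := by rw [S.mul, if_pos rfl]
        rw [← mul_assoc, ← mul_assoc, h1, mul_assoc _ (E (μ : ℝ)), h1]⟩
      map_add' := fun a b => by
        funext μ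
        apply Subtype.ext
        change E μ * ((a : Matrix n n ℂ) + (b : Matrix n n ℂ)) * E μ = _
        rw [mul_add, add_mul]
        rfl
      map_smul' := fun c a => by
        funext μ
        apply Subtype.ext
        change E μ * (c • (a : Matrix n n ℂ)) * E μ = _
        rw [mul_smul_comm, smul_mul_assoc]
        rfl }
  have hinj : Function.Injective Φ := by
    rw [injective_iff_map_eq_zero]
    rintro ⟨x, hx⟩ h0
    apply Subtype.ext
    change x = 0
    apply S.ext
    intro μ μ'
    rw [mul_zero, zero_mul]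
    by_cases hμ : μ = μ'
    · subst hμ
      by_cases hμΛ : μ ∈ Λ
      · have h1 := congrFun h0 ⟨μ, hμΛ⟩
        exact congrArg Subtype.val h1
      · rw [S.supp μ hμΛ, zero_mul, zero_mul]
    · exact G.Ld_block hx (fun h1 => hμ (sub_eq_zero.1 h1))
  have h4 := LinearMap.finrank_le_finrank_of_injective hinj
  rw [Module.finrank_pi_fintype] at h4
  refine h4.trans ?_
  rw [← Finset.sum_coe_sort Λ]
  refine Finset.sum_le_sum fun μ _ => finrank_Cr43 ?_
  rw [S.mul, if_pos rfl]

/-- if the centraliser is large then some eigenvalue has multiplicity at least `card - 1` -/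
theorem Gr.big_sl43 (G : Gr L h E Λ) (hL : ∀ x : Matrix n n ℂ, x ∈ L) (hn : 1 ≤ Fintype.card n)
    (hR : finrank ℂ L ≤ finrank ℂ (Ld L h 0) + 2 * (Fintype.card n - 1)) :
    ∃ μ : ℝ, Fintype.card n ≤ (E μ).rank + 1 := by
  classical
  by_contra hcon
  push Not at hcon
  have h1 := G.ld_le43
  have h2 : ∑ μ ∈ Λ, (E μ).rank = Fintype.card n := by
    have h3 : ((∑ μ ∈ Λ, (E μ).rank : ℕ) : ℂ) = (Fintype.card n : ℂ) := by
      push_cast
      rw [Finset.sum_congr rfl fun μ _ => rank_eq_trace (e := E μ) (by rw [G.spec.mul, if_pos rfl]), ← Matrix.trace_sum,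
        G.spec.sum, Matrix.trace_one]
    exact_mod_cast h3
  have h3 : finrank ℂ L = Fintype.card n ^ 2 := by
    have : L = ⊤ := by
      rw [Submodule.eq_top_iff']
      exact hL
    rw [this, finrank_top, Module.finrank_matrix]
    simp [pow_two]
  have h4 : ∑ μ ∈ Λ, (E μ).rank ^ 2 ≤ (Fintype.card n - 2) * Fintype.card n := by
    rw [← h2, Finset.mul_sum, h2]
    refine Finset.sum_le_sum fun μ _ => ?_
    rw [pow_two]
    refine Nat.mul_le_mul_right _ ?_
    have := hcon μ
    omega
  rw [h3] at hR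
  have h5 : Fintype.card n ^ 2 ≤ (Fintype.card n - 2) * Fintype.card n + 2 * (Fintype.card n - 1) := by omega
  have h6 : 2 ≤ Fintype.card n := by
    have := hcon 0
    omega
  obtain ⟨a, ha⟩ := Nat.exists_eq_add_of_le h6
  rw [ha] at h5
  have e1 : 2 + a - 2 = a := by omega
  have e2 : 2 + a - 1 = a + 1 := by omega
  rw [e1, e2] at h5
  nlinarith

end GH
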