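import Pool.Agent.Helper43.GP.Dim

/-!
Project GP: dimensions for the orthogonal and the symplectic type.
-/

set_option linter.unusedSectionVars false
set_option linter.unusedVariables false

open Matrix Module

namespace GH

open MH

/-- skew-symmetric (`ε = 1`) or symmetric (`ε = -1`) matrices -/
def Te43 (ε : ℂ) (m : Type*) [Fintype m] [DecidableEq m] : Submodule ℂ (Matrix m m ℂ) where
  carrier := {y | yᵀ = -(ε • y)}
  add_mem' := by
    intro a b ha hb
    change (a + b)ᵀ = -(ε • (a + b))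
    rw [Matrix.transpose_add, show aᵀ = -(ε • a) from ha, show bᵀ = -(ε • b) from hb, smul_add, neg_add]
  zero_mem' := by
    change (0 : Matrix m m ℂ)ᵀ = -(ε • 0)
    simp
  smul_mem' := by
    intro c a ha
    change (c • a)ᵀ = -(ε • (c • a))
    rw [Matrix.transpose_smul, show aᵀ = -(ε • a) from ha, smul_neg, smul_comm]

theorem mem_Te43 {ε : ℂ} {m : Type*} [Fintype m] [DecidableEq m] {y : Matrix m m ℂ} :
    y ∈ Te43 ε m ↔ yᵀ = -(ε • y) := Iff.rfl

theorem finrank_Te_one43 (m : Type*) [Fintype m] [DecidableEq m] :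
    2 * finrank ℂ (Te43 1 m) + Fintype.card m = Fintype.card m ^ 2 := by
  have h1 : Te43 1 m = TR.sk m := by
    ext y
    rw [mem_Te43, TR.mem_sk, one_smul]
  rw [h1]
  exact finrank_sk m

theorem finrank_Te_neg43 (m : Type*) [Fintype m] [DecidableEq m] :
    2 * finrank ℂ (Te43 (-1) m) = Fintype.card m ^ 2 + Fintype.card m := by
  have h1 := finrank_Te_one43 m
  have h2 : IsCompl (Te43 1 m) (Te43 (-1) m) := by
    constructor
    · rw [Submodule.disjoint_def]
      intro y h3 h4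
      rw [mem_Te43, one_smul] at h3
      rw [mem_Te43, neg_one_smul, neg_neg] at h4
      have h5 : (2 : ℂ) • y = 0 := by
        rw [two_smul]
        nth_rewrite 1 [← h4]
        rw [h3, neg_add_cancel]
      exact (smul_eq_zero.1 h5).resolve_left two_ne_zero
    · rw [codisjoint_iff, Submodule.eq_top_iff']
      intro y
      have h3 : y = (1 / 2 : ℂ) • (y - yᵀ) + (1 / 2 : ℂ) • (y + yᵀ) := by module
      rw [h3]
      refine Submodule.add_mem_sup ?_ ?_
      · refine Submodule.smul_mem _ _ ?_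
        rw [mem_Te43, one_smul, Matrix.transpose_sub, Matrix.transpose_transpose, neg_sub]
      · refine Submodule.smul_mem _ _ ?_
        rw [mem_Te43, neg_one_smul, neg_neg, Matrix.transpose_add, Matrix.transpose_transpose, add_comm]
  have h3 := Submodule.finrank_add_eq_of_isCompl h2
  rw [Module.finrank_matrix, Module.finrank_self, mul_one, ← pow_two] at h3
  omega

variable {n : Type*} [Fintype n] [DecidableEq n] {L : Submodule ℂ (Matrix n n ℂ)} {h : Matrix n n ℂ}
  {E : ℝ → Matrix n n ℂ} {Λ : Finset ℝ}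

section form

variable {Q Qi : Matrix n n ℂ} {ε : ℂ} (hε : ε * ε = 1) (hQ : Qᵀ = ε • Q) (h1 : Q * Qi = 1) (h2 : Qi * Q = 1)
include hε hQ h1 h2

theorem Qi_tr43 : Qiᵀ = ε • Qi := by
  have h3 : Qᵀ * (ε • Qi) = 1 := by
    rw [hQ, Matrix.smul_mul, Matrix.mul_smul, smul_smul, hε, h1, one_smul]
  have h4 : Qiᵀ * Qᵀ = 1 := by rw [← Matrix.transpose_mul, h1, Matrix.transpose_one]
  calc Qiᵀ = Qiᵀ * (Qᵀ * (ε • Qi)) := by rw [h3, Matrix.mul_one]
    _ = ε • Qi := by rw [← Matrix.mul_assoc, h4, Matrix.one_mul]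

theorem skew_of43 {y : Matrix n n ℂ} (hy : y ∈ Te43 ε n) : (Qi * y)ᵀ * Q + Q * (Qi * y) = 0 := by
  rw [mem_Te43] at hy
  rw [Matrix.transpose_mul, hy, Qi_tr43 hε hQ h1 h2, Matrix.mul_assoc, Matrix.smul_mul, h2, ← Matrix.mul_assoc Q, h1,
    Matrix.one_mul, Matrix.mul_smul, Matrix.mul_one, smul_neg, smul_smul, hε, one_smul, neg_add_cancel]

theorem Te_of43 {x : Matrix n n ℂ} (hx : xᵀ * Q + Q * x = 0) : Q * x ∈ Te43 ε n := by
  rw [mem_Te43, Matrix.transpose_mul, hQ, Matrix.mul_smul, eq_neg_of_add_eq_zero_left hx, smul_neg]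

/-- the dimension of `L` from below -/
theorem dim_ge43 [Nonempty n] (one : (1 : Matrix n n ℂ) ∈ L) (hL : ∀ x : Matrix n n ℂ, xᵀ * Q + Q * x = 0 → x ∈ L) :
    finrank ℂ (Te43 ε n) + 1 ≤ finrank ℂ L := by
  let Φ : (Te43 ε n × ℂ) →ₗ[ℂ] L :=
    { toFun := fun p => ⟨Qi * (p.1 : Matrix n n ℂ) + p.2 • 1,
        L.add_mem (hL _ (skew_of43 hε hQ h1 h2 p.1.2)) (L.smul_mem _ one)⟩
      map_add' := fun p q => by
        apply Subtype.ext
        change Qi * ((p.1 : Matrix n n ℂ) + (q.1 : Matrix n n ℂ)) + (p.2 + q.2) • (1 : Matrix n n ℂ) =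
          (Qi * (p.1 : Matrix n n ℂ) + p.2 • 1) + (Qi * (q.1 : Matrix n n ℂ) + q.2 • 1)
        rw [Matrix.mul_add, add_smul]
        abel
      map_smul' := fun c p => by
        apply Subtype.ext
        change Qi * (c • (p.1 : Matrix n n ℂ)) + (c * p.2) • (1 : Matrix n n ℂ) =
          c • (Qi * (p.1 : Matrix n n ℂ) + p.2 • 1)
        rw [Matrix.mul_smul, smul_add, smul_smul] }
  have hinj : Function.Injective Φ := by
    rw [injective_iff_map_eq_zero]
    rintro ⟨⟨y, hy⟩, c⟩ h0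
    have h3 : Qi * y + c • (1 : Matrix n n ℂ) = 0 := congrArg Subtype.val h0
    have h4 : y = -(c • Q) := by
      have h5 : Q * (Qi * y + c • (1 : Matrix n n ℂ)) = 0 := by rw [h3, Matrix.mul_zero]
      rw [Matrix.mul_add, ← Matrix.mul_assoc, h1, Matrix.one_mul, Matrix.mul_smul, Matrix.mul_one] at h5
      exact eq_neg_of_add_eq_zero_left h5
    have hy' := hy
    rw [mem_Te43, h4, Matrix.transpose_neg, Matrix.transpose_smul, hQ, smul_neg, neg_neg, smul_comm ε c] at hy'
    have h6 : (2 * c * ε) • Q = 0 := by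
      have h7 : c • ε • Q + c • ε • Q = 0 := by
        nth_rewrite 1 [← hy']
        exact neg_add_cancel _
      rw [← h7, smul_smul]
      module
    have hε0 : ε ≠ 0 := by
      rintro rfl
      rw [zero_mul] at hε
      exact zero_ne_one hε
    have hQ0 : Q ≠ 0 := by
      rintro rfl
      rw [Matrix.zero_mul] at h1
      exact zero_ne_one h1
    have hc : c = 0 := by
      rcases smul_eq_zero.1 h6 with h8 | h8
      · rcases mul_eq_zero.1 h8 with h9 | h9
        · exact (mul_eq_zero.1 h9).resolve_left two_ne_zero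
        · exact absurd h9 hε0
      · exact absurd h8 hQ0
    subst hc
    rw [zero_smul, neg_zero] at h4
    subst h4
    rfl
  have h4 := LinearMap.finrank_le_finrank_of_injective hinj
  rwa [Module.finrank_prod, Module.finrank_self] at h4

end form

section skew

variable {Q : Matrix n n ℂ} (S : Spec h E Λ) (hh : hᵀ * Q + Q * h = 0)
include S hh

theorem blk_zero43 {μ ν : ℝ} (hμν : μ + ν ≠ 0) : (E μ)ᵀ * Q * E ν = 0 := by
  have hhE : ∀ μ, h * E μ = (μ : ℂ) • E μ := S.h_mul
  have hET : ∀ μ, (E μ)ᵀ * hᵀ = (μ : ℂ) • (E μ)ᵀ := by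
    intro μ
    rw [← Matrix.transpose_mul, hhE, Matrix.transpose_smul]
  have h1 : (E μ)ᵀ * (hᵀ * Q + Q * h) * E ν = ((μ : ℂ) + ν) • ((E μ)ᵀ * Q * E ν) := by
    rw [Matrix.mul_add, Matrix.add_mul, ← Matrix.mul_assoc, hET, Matrix.smul_mul, Matrix.smul_mul,
      ← Matrix.mul_assoc (E μ)ᵀ Q h, Matrix.mul_assoc ((E μ)ᵀ * Q) h, hhE, Matrix.mul_smul, add_smul]
  rw [hh, Matrix.mul_zero, Matrix.zero_mul] at h1
  refine (smul_eq_zero.1 h1.symm).resolve_left fun h2 => hμν ?_
  exact_mod_cast h2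

/-- sums over sets of eigenvalues that are never opposite -/
theorem blk_sum43 {A B : Finset ℝ} (hAB : ∀ μ ∈ A, ∀ ν ∈ B, μ + ν ≠ 0) :
    (∑ μ ∈ A, E μ)ᵀ * Q * ∑ ν ∈ B, E ν = 0 := by
  rw [Matrix.transpose_sum, Finset.sum_mul, Finset.sum_mul]
  refine Finset.sum_eq_zero fun μ hμ => ?_
  rw [Finset.mul_sum]
  exact Finset.sum_eq_zero fun ν hν => blk_zero43 S hh (hAB μ hμ ν hν)

theorem zero_eq43 : (E 0)ᵀ * Q = Q * E 0 := by
  classical
  have s1 := S.one_eq
  have e1 : (E 0)ᵀ * Q = (E 0)ᵀ * Q * E 0 := by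
    have a1 : (E 0)ᵀ * Q * Pp E Λ = 0 := by
      have := blk_sum43 S hh (A := {0}) (B := Λ.filter fun μ => 0 < μ) (by
        intro μ hμ ν hν
        rw [Finset.mem_singleton] at hμ
        have := (Finset.mem_filter.1 hν).2
        subst hμ
        linarith [this])
      rwa [Finset.sum_singleton] at this
    have a2 : (E 0)ᵀ * Q * Qn E Λ = 0 := by
      have := blk_sum43 S hh (A := {0}) (B := Λ.filter fun μ => μ < 0) (by
        intro μ hμ ν hν
        rw [Finset.mem_singleton] at hμ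
        have := (Finset.mem_filter.1 hν).2
        subst hμ
        linarith [this])
      rwa [Finset.sum_singleton] at this
    calc (E 0)ᵀ * Q = (E 0)ᵀ * Q * (Pp E Λ + E 0 + Qn E Λ) := by rw [s1, Matrix.mul_one]
      _ = _ := by rw [Matrix.mul_add, Matrix.mul_add, a1, a2, zero_add, add_zero]
  have e2 : Q * E 0 = (E 0)ᵀ * Q * E 0 := by
    have a1 : (Pp E Λ)ᵀ * Q * E 0 = 0 := by
      have := blk_sum43 S hh (B := {0}) (A := Λ.filter fun μ => 0 < μ) (by
        intro μ hμ ν hν
        rw [Finset.mem_singleton] at hν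
        have := (Finset.mem_filter.1 hμ).2
        subst hν
        linarith [this])
      rwa [Finset.sum_singleton] at this
    have a2 : (Qn E Λ)ᵀ * Q * E 0 = 0 := by
      have := blk_sum43 S hh (B := {0}) (A := Λ.filter fun μ => μ < 0) (by
        intro μ hμ ν hν
        rw [Finset.mem_singleton] at hν
        have := (Finset.mem_filter.1 hμ).2
        subst hν
        linarith [this])
      rwa [Finset.sum_singleton] at this
    calc Q * E 0 = (Pp E Λ + E 0 + Qn E Λ)ᵀ * Q * E 0 := by rw [s1, Matrix.transpose_one, Matrix.one_mul]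
      _ = _ := by
        rw [Matrix.transpose_add, Matrix.transpose_add, Matrix.add_mul, Matrix.add_mul, Matrix.add_mul, Matrix.add_mul,
          a1, a2, zero_add, add_zero]
  rw [e1, e2]

theorem pos_eq43 : Q * Pp E Λ = (Qn E Λ)ᵀ * Q := by
  classical
  have s1 := S.one_eq
  have e1 : (Qn E Λ)ᵀ * Q = (Qn E Λ)ᵀ * Q * Pp E Λ := by
    have a1 : (Qn E Λ)ᵀ * Q * E 0 = 0 := by
      have := blk_sum43 S hh (B := {0}) (A := Λ.filter fun μ => μ < 0) (by
        intro μ hμ ν hν
        rw [Finset.mem_singleton] at hν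
        have := (Finset.mem_filter.1 hμ).2
        subst hν
        linarith [this])
      rwa [Finset.sum_singleton] at this
    have a2 : (Qn E Λ)ᵀ * Q * Qn E Λ = 0 := by
      refine blk_sum43 S hh (A := Λ.filter fun μ => μ < 0) (B := Λ.filter fun μ => μ < 0) ?_
      intro μ hμ ν hν
      have h3 := (Finset.mem_filter.1 hμ).2
      have h4 := (Finset.mem_filter.1 hν).2
      linarith
    calc (Qn E Λ)ᵀ * Q = (Qn E Λ)ᵀ * Q * (Pp E Λ + E 0 + Qn E Λ) := by rw [s1, Matrix.mul_one]
      _ = _ := by rw [Matrix.mul_add, Matrix.mul_add, a1, a2, add_zero, add_zero]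
  have e2 : Q * Pp E Λ = (Qn E Λ)ᵀ * Q * Pp E Λ := by
    have a1 : (E 0)ᵀ * Q * Pp E Λ = 0 := by
      have := blk_sum43 S hh (A := {0}) (B := Λ.filter fun μ => 0 < μ) (by
        intro μ hμ ν hν
        rw [Finset.mem_singleton] at hμ
        have := (Finset.mem_filter.1 hν).2
        subst hμ
        linarith [this])
      rwa [Finset.sum_singleton] at this
    have a2 : (Pp E Λ)ᵀ * Q * Pp E Λ = 0 := by
      refine blk_sum43 S hh (A := Λ.filter fun μ => 0 < μ) (B := Λ.filter fun μ => 0 < μ) ?_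
      intro μ hμ ν hν
      have h3 := (Finset.mem_filter.1 hμ).2
      have h4 := (Finset.mem_filter.1 hν).2
      linarith
    calc Q * Pp E Λ = (Pp E Λ + E 0 + Qn E Λ)ᵀ * Q * Pp E Λ := by rw [s1, Matrix.transpose_one, Matrix.one_mul]
      _ = _ := by
        rw [Matrix.transpose_add, Matrix.transpose_add, Matrix.add_mul, Matrix.add_mul, Matrix.add_mul, Matrix.add_mul,
          a1, a2, zero_add, zero_add]
  rw [e1, e2]

theorem neg_eq43 : Q * Qn E Λ = (Pp E Λ)ᵀ * Q := by
  classical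
  have s1 := S.one_eq
  have e1 : (Pp E Λ)ᵀ * Q = (Pp E Λ)ᵀ * Q * Qn E Λ := by
    have a1 : (Pp E Λ)ᵀ * Q * E 0 = 0 := by
      have := blk_sum43 S hh (B := {0}) (A := Λ.filter fun μ => 0 < μ) (by
        intro μ hμ ν hν
        rw [Finset.mem_singleton] at hν
        have := (Finset.mem_filter.1 hμ).2
        subst hν
        linarith [this])
      rwa [Finset.sum_singleton] at this
    have a2 : (Pp E Λ)ᵀ * Q * Pp E Λ = 0 := by
      refine blk_sum43 S hh (A := Λ.filter fun μ => 0 < μ) (B := Λ.filter fun μ => 0 < μ) ?_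
      intro μ hμ ν hν
      have h3 := (Finset.mem_filter.1 hμ).2
      have h4 := (Finset.mem_filter.1 hν).2
      linarith
    calc (Pp E Λ)ᵀ * Q = (Pp E Λ)ᵀ * Q * (Pp E Λ + E 0 + Qn E Λ) := by rw [s1, Matrix.mul_one]
      _ = _ := by rw [Matrix.mul_add, Matrix.mul_add, a1, a2, zero_add, zero_add]
  have e2 : Q * Qn E Λ = (Pp E Λ)ᵀ * Q * Qn E Λ := by
    have a1 : (E 0)ᵀ * Q * Qn E Λ = 0 := by
      have := blk_sum43 S hh (A := {0}) (B := Λ.filter fun μ => μ < 0) (by
        intro μ hμ ν hν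
        rw [Finset.mem_singleton] at hμ
        have := (Finset.mem_filter.1 hν).2
        subst hμ
        linarith [this])
      rwa [Finset.sum_singleton] at this
    have a2 : (Qn E Λ)ᵀ * Q * Qn E Λ = 0 := by
      refine blk_sum43 S hh (A := Λ.filter fun μ => μ < 0) (B := Λ.filter fun μ => μ < 0) ?_
      intro μ hμ ν hν
      have h3 := (Finset.mem_filter.1 hμ).2
      have h4 := (Finset.mem_filter.1 hν).2
      linarith
    calc Q * Qn E Λ = (Pp E Λ + E 0 + Qn E Λ)ᵀ * Q * Qn E Λ := by rw [s1, Matrix.transpose_one, Matrix.one_mul]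
      _ = _ := by
        rw [Matrix.transpose_add, Matrix.transpose_add, Matrix.add_mul, Matrix.add_mul, Matrix.add_mul, Matrix.add_mul,
          a1, a2, add_zero, add_zero]
  rw [e1, e2]

end skew

end GH
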