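import Pool.Agent.Helper43.GP.Spf
import Pool.Agent.Helper58.GH.Pair

/-!
Project GP: the pair lemma for blocks of full type, without Hodge data.
-/

set_option linter.unusedSectionVars false
set_option linter.unusedVariables false

open Matrix Module

namespace GH

open MH

variable {n : Type*} [Fintype n] [DecidableEq n] {L : Submodule ℂ (Matrix n n ℂ)} {h : Matrix n n ℂ}
  {E : ℝ → Matrix n n ℂ} {Λ : Finset ℝ}

theorem Ld_shift43 (L : Submodule ℂ (Matrix n n ℂ)) (h : Matrix n n ℂ) (t : ℂ) (ν : ℝ) :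
    Ld L (h - t • (1 : Matrix n n ℂ)) ν = Ld L h ν := by
  ext x
  rw [mem_Ld, mem_Ld, Matrix.sub_mul, Matrix.mul_sub, Matrix.smul_mul, Matrix.mul_smul, Matrix.one_mul, Matrix.mul_one,
    sub_sub_sub_cancel_right]

/-- a Hermitian element with a large centraliser is good after a shift -/
theorem good_of43 (G : Gr L h E Λ) (one : (1 : Matrix n n ℂ) ∈ L)
    (irr : ∀ T : Matrix n n ℂ, (∀ x ∈ L, T * x = x * T) → ∃ c : ℂ, T = c • (1 : Matrix n n ℂ)) (ty : TyN L)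
    (h3 : 3 ≤ Fintype.card n) (hns : ∀ c : ℂ, h ≠ c • (1 : Matrix n n ℂ))
    (hR : finrank ℂ L ≤ finrank ℂ (Ld L h 0) + 2 * (Fintype.card n - 1)) :
    ∃ t : ℝ, Good L (h - (t : ℂ) • (1 : Matrix n n ℂ)) (fun μ => E (μ + t)) (Λ.image (fun μ => μ - t)) := by
  classical
  have hns' : ∀ (t : ℝ) (c : ℂ), h - (t : ℂ) • (1 : Matrix n n ℂ) ≠ c • (1 : Matrix n n ℂ) := by
    intro t c hc
    apply hns (c + t)
    rw [add_smul, ← hc, sub_add_cancel]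
  have hne : ∀ t : ℝ, (fun μ => E (μ + t)) (0 : ℝ) ≠ 1 := by
    intro t h1
    change E (0 + t) = 1 at h1
    rw [zero_add] at h1
    apply hns (t : ℂ)
    have h4 := G.spec.h_mul t
    rwa [h1, Matrix.mul_one] at h4
  have mk : ∀ t : ℝ, finrank ℂ (Ld L (h - (t : ℂ) • (1 : Matrix n n ℂ)) 0) + 3 ≤
      2 * finrank ℂ (KK L (fun μ => E (μ + t))) →
      Good L (h - (t : ℂ) • (1 : Matrix n n ℂ)) (fun μ => E (μ + t)) (Λ.image (fun μ => μ - t)) := by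
    intro t hnu
    have G' := G.shift one t
    refine ⟨G', one, ty.1, fun T _ hT => nr_full43 G' irr ty.tyF (by omega) (hns' t) hT, hne t, ty.tyF.2, hnu⟩
  by_cases hsl : ∀ x : Matrix n n ℂ, x.trace = 0 → x ∈ L
  · have hall : ∀ x : Matrix n n ℂ, x ∈ L := by
      intro x
      have hn' : (Fintype.card n : ℂ) ≠ 0 := by
        have : Fintype.card n ≠ 0 := by omega
        exact_mod_cast this
      have e1 : x = tz43 x + (x.trace / (Fintype.card n : ℂ)) • (1 : Matrix n n ℂ) := by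
        rw [tz_apply43, sub_add_cancel]
      rw [e1]
      refine L.add_mem (hsl _ ?_) (L.smul_mem _ one)
      rw [tz_apply43, Matrix.trace_sub, Matrix.trace_smul, Matrix.trace_one, smul_eq_mul, div_mul_cancel₀ _ hn', sub_self]
    obtain ⟨t, ht⟩ := G.big_sl43 hall (by omega) hR
    refine ⟨t, mk t ?_⟩
    obtain ⟨E', hE'⟩ : ∃ E' : ℝ → Matrix n n ℂ, E' = fun μ => E (μ + t) := ⟨_, rfl⟩
    have G' := G.shift one t
    rw [← hE'] at G' ⊢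
    have e1 := G'.dim_zero
    have e2 := nu_all21 G' hall
    have e3 := rank_compl (n := n) (F := E' 0) G'.E0_E0
    have e4 : E' 0 = E t := by
      rw [hE']
      change E (0 + t) = _
      rw [zero_add]
    rw [e4] at e1 e2 e3
    obtain ⟨r, hr⟩ : ∃ r, r = (1 - E t).rank := ⟨_, rfl⟩
    rw [← hr] at e1 e3
    have e5 : r ≤ 1 := by omega
    have e6 : r ^ 2 ≤ 1 := by nlinarith
    have e7 : 2 ≤ (E t).rank := by omega
    have e8 : 4 ≤ (E t).rank ^ 2 := by nlinarith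
    omega
  · have h9 : 9 ≤ Fintype.card n := ty.2.resolve_left hsl
    obtain ⟨Q, hQ, hu, hsk, hL⟩ := ty.1.resolve_left hsl
    obtain ⟨ε, hε, hQε⟩ : ∃ ε : ℂ, (ε = 1 ∨ ε = -1) ∧ Qᵀ = ε • Q := by
      rcases hQ with h1 | h1
      · exact ⟨1, Or.inl rfl, by rw [h1, one_smul]⟩
      · exact ⟨-1, Or.inr rfl, by rw [h1, neg_one_smul]⟩
    have hεε : ε * ε = 1 := by rcases hε with rfl | rfl <;> norm_num
    have hd : IsUnit Q.det := (Matrix.isUnit_iff_isUnit_det Q).1 hu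
    have h1 : Q * Q⁻¹ = 1 := Matrix.mul_nonsing_inv Q hd
    have h2 : Q⁻¹ * Q = 1 := Matrix.nonsing_inv_mul Q hd
    obtain ⟨t, ht⟩ : ∃ t : ℝ, (t : ℂ) = h.trace / (Fintype.card n : ℂ) := by
      refine ⟨(h.trace / (Fintype.card n : ℂ)).re, ?_⟩
      rw [← Complex.conj_eq_iff_re]
      change star _ = _
      rw [star_div₀, ← Matrix.trace_conjTranspose, G.spec.hh, star_natCast]
    have e0 : h - (t : ℂ) • (1 : Matrix n n ℂ) = tz43 h := by rw [tz_apply43, ht]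
    obtain ⟨c, hc⟩ := hL h G.mem
    have hh := tz_skew43 h1 (by omega) hc
    rw [← e0] at hh
    refine ⟨t, mk t ?_⟩
    obtain ⟨E', hE'⟩ : ∃ E' : ℝ → Matrix n n ℂ, E' = fun μ => E (μ + t) := ⟨_, rfl⟩
    have G' := G.shift one t
    rw [← hE'] at G' ⊢
    have e1 := G'.big_form43 hε hQε h1 h2 h9 hh one hsk hL (fun h0 => hns' t 0 (by rw [h0, zero_smul]))
      (by rwa [Ld_shift43])
    have e2 := G'.dim_zero
    have e3 := nu_skew21 G' hεε hQε hu hsk (zero_eq43 G'.spec hh) (by omega)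
    have e4 := rank_compl (n := n) (F := E' 0) G'.E0_E0
    obtain ⟨r, hr⟩ : ∃ r, r = (1 - E' 0).rank := ⟨_, rfl⟩
    rw [← hr] at e2 e4
    have e5 : r = 2 := by omega
    rw [e5] at e2
    omega

theorem special43 (st : ∀ x ∈ L, xᴴ ∈ L) (one : (1 : Matrix n n ℂ) ∈ L)
    (irr : ∀ T : Matrix n n ℂ, (∀ x ∈ L, T * x = x * T) → ∃ c : ℂ, T = c • (1 : Matrix n n ℂ)) (ty : Ty L)
    (h3 : 2 ≤ Fintype.card n) : ∃ h ∈ L, hᴴ = h ∧ (∀ c : ℂ, h ≠ c • (1 : Matrix n n ℂ)) ∧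
      finrank ℂ L ≤ finrank ℂ (Ld L h 0) + 2 * (Fintype.card n - 1) := by
  by_cases hsl : ∀ x : Matrix n n ℂ, x.trace = 0 → x ∈ L
  · refine spe_all43 (fun x => ?_) h3
    have hn' : (Fintype.card n : ℂ) ≠ 0 := by
      have : Fintype.card n ≠ 0 := by omega
      exact_mod_cast this
    have e1 : x = tz43 x + (x.trace / (Fintype.card n : ℂ)) • (1 : Matrix n n ℂ) := by
      rw [tz_apply43, sub_add_cancel]
    rw [e1]
    refine L.add_mem (hsl _ ?_) (L.smul_mem _ one)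
    rw [tz_apply43, Matrix.trace_sub, Matrix.trace_smul, Matrix.trace_one, smul_eq_mul, div_mul_cancel₀ _ hn', sub_self]
  · obtain ⟨Q, hQ, hu, hsk, hL⟩ := ty.resolve_left hsl
    obtain ⟨ε, hε, hQε⟩ : ∃ ε : ℂ, (ε = 1 ∨ ε = -1) ∧ Qᵀ = ε • Q := by
      rcases hQ with h1 | h1
      · exact ⟨1, Or.inl rfl, by rw [h1, one_smul]⟩
      · exact ⟨-1, Or.inr rfl, by rw [h1, neg_one_smul]⟩
    have hd : IsUnit Q.det := (Matrix.isUnit_iff_isUnit_det Q).1 hu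
    exact spe_form43 st irr hε hQε (Matrix.mul_nonsing_inv Q hd) h3 hsk hL

section pair

variable {m : Type*} [Fintype m] [DecidableEq m] {k : Type*} [Fintype k] [DecidableEq k]
  {P : Submodule ℂ (Matrix m m ℂ × Matrix k k ℂ)}

/-- the centraliser of a pair -/
def Cz43 (P : Submodule ℂ (Matrix m m ℂ × Matrix k k ℂ)) (h₁ : Matrix m m ℂ) (h₂ : Matrix k k ℂ) :
    Submodule ℂ (Matrix m m ℂ × Matrix k k ℂ) where
  carrier := {p | p ∈ P ∧ h₁ * p.1 - p.1 * h₁ = 0 ∧ h₂ * p.2 - p.2 * h₂ = 0}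
  add_mem' := by
    rintro a b ⟨ha, ha', ha''⟩ ⟨hb, hb', hb''⟩
    refine ⟨P.add_mem ha hb, ?_, ?_⟩
    · rw [Prod.fst_add, mul_add, add_mul, add_sub_add_comm, ha', hb', add_zero]
    · rw [Prod.snd_add, mul_add, add_mul, add_sub_add_comm, ha'', hb'', add_zero]
  zero_mem' := ⟨P.zero_mem, by simp, by simp⟩
  smul_mem' := by
    rintro c a ⟨ha, ha', ha''⟩
    refine ⟨P.smul_mem c ha, ?_, ?_⟩
    · rw [Prod.smul_fst, mul_smul_comm, smul_mul_assoc, ← smul_sub, ha', smul_zero]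
    · rw [Prod.smul_snd, mul_smul_comm, smul_mul_assoc, ← smul_sub, ha'', smul_zero]

theorem comm_scalar43 {x y : Matrix m m ℂ} [Nonempty m] {c : ℂ} (hc : x * y - y * x = c • (1 : Matrix m m ℂ)) :
    x * y - y * x = 0 := by
  have h1 := congrArg Matrix.trace hc
  rw [Matrix.trace_sub, Matrix.trace_mul_comm x y, sub_self, Matrix.trace_smul, Matrix.trace_one, smul_eq_mul] at h1
  have h2 : (Fintype.card m : ℂ) ≠ 0 := by exact_mod_cast Fintype.card_ne_zero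
  rw [hc, (mul_eq_zero.1 h1.symm).resolve_right h2, zero_smul]

theorem dims43 [Nonempty m] [Nonempty k] (br : ∀ p ∈ P, ∀ q ∈ P, p * q - q * p ∈ P)
    (one1 : ((1 : Matrix m m ℂ), (0 : Matrix k k ℂ)) ∈ P) (one2 : ((0 : Matrix m m ℂ), (1 : Matrix k k ℂ)) ∈ P)
    (g : Gra P) {h₁ : Matrix m m ℂ} {h₂ : Matrix k k ℂ} (hm : (h₁, h₂) ∈ P) :
    finrank ℂ (P.map (LinearMap.fst ℂ (Matrix m m ℂ) (Matrix k k ℂ))) =
        finrank ℂ (P.map (LinearMap.snd ℂ (Matrix m m ℂ) (Matrix k k ℂ))) ∧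
      finrank ℂ (Ld (P.map (LinearMap.fst ℂ (Matrix m m ℂ) (Matrix k k ℂ))) h₁ 0) =
        finrank ℂ (Ld (P.map (LinearMap.snd ℂ (Matrix m m ℂ) (Matrix k k ℂ))) h₂ 0) := by
  have a1 := fst_dim43 one2 g
  have a2 := snd_dim43 one1 g
  have c1 : ((1 : Matrix m m ℂ), (0 : Matrix k k ℂ)) ∈ Cz43 P h₁ h₂ := ⟨one1, by simp, by simp⟩
  have c2 : ((0 : Matrix m m ℂ), (1 : Matrix k k ℂ)) ∈ Cz43 P h₁ h₂ := ⟨one2, by simp, by simp⟩
  have g' : Gra (Cz43 P h₁ h₂) := fun p hp => g p hp.1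
  have b1 := fst_dim43 c2 g'
  have b2 := snd_dim43 c1 g'
  have e1 : (Cz43 P h₁ h₂).map (LinearMap.fst ℂ (Matrix m m ℂ) (Matrix k k ℂ)) =
      Ld (P.map (LinearMap.fst ℂ (Matrix m m ℂ) (Matrix k k ℂ))) h₁ 0 := by
    ext x
    constructor
    · rintro ⟨p, hp, rfl⟩
      exact ⟨⟨p, hp.1, rfl⟩, by rw [Complex.ofReal_zero, zero_smul]; exact hp.2.1⟩
    · rintro ⟨⟨p, hp, rfl⟩, h0⟩
      rw [Complex.ofReal_zero, zero_smul] at h0
      refine ⟨p, ⟨hp, h0, ?_⟩, rfl⟩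
      have h1 := br _ hm _ hp
      obtain ⟨c, hc⟩ := (g _ h1).1 ⟨0, by rw [zero_smul]; exact h0⟩
      exact comm_scalar43 hc
  have e2 : (Cz43 P h₁ h₂).map (LinearMap.snd ℂ (Matrix m m ℂ) (Matrix k k ℂ)) =
      Ld (P.map (LinearMap.snd ℂ (Matrix m m ℂ) (Matrix k k ℂ))) h₂ 0 := by
    ext x
    constructor
    · rintro ⟨p, hp, rfl⟩
      exact ⟨⟨p, hp.1, rfl⟩, by rw [Complex.ofReal_zero, zero_smul]; exact hp.2.2⟩
    · rintro ⟨⟨p, hp, rfl⟩, h0⟩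
      rw [Complex.ofReal_zero, zero_smul] at h0
      refine ⟨p, ⟨hp, ?_, h0⟩, rfl⟩
      have h1 := br _ hm _ hp
      obtain ⟨c, hc⟩ := (g _ h1).2 ⟨0, by rw [zero_smul]; exact h0⟩
      exact comm_scalar43 hc
  rw [e1] at b1
  rw [e2] at b2
  omega

/-- the pair lemma for blocks of full type -/
theorem pairN (br : ∀ p ∈ P, ∀ q ∈ P, p * q - q * p ∈ P) (st : ∀ p ∈ P, (p.1ᴴ, p.2ᴴ) ∈ P)
    (one1 : ((1 : Matrix m m ℂ), (0 : Matrix k k ℂ)) ∈ P) (one2 : ((0 : Matrix m m ℂ), (1 : Matrix k k ℂ)) ∈ P)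
    (irr1 : ∀ T : Matrix m m ℂ, (∀ x ∈ P.map (LinearMap.fst ℂ (Matrix m m ℂ) (Matrix k k ℂ)), T * x = x * T) →
      ∃ c : ℂ, T = c • (1 : Matrix m m ℂ))
    (irr2 : ∀ T : Matrix k k ℂ, (∀ x ∈ P.map (LinearMap.snd ℂ (Matrix m m ℂ) (Matrix k k ℂ)), T * x = x * T) →
      ∃ c : ℂ, T = c • (1 : Matrix k k ℂ))
    (hm : 3 ≤ Fintype.card m) (hk : 3 ≤ Fintype.card k) (g : Gra P)
    (t1 : TyN (P.map (LinearMap.fst ℂ (Matrix m m ℂ) (Matrix k k ℂ))))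
    (t2 : TyN (P.map (LinearMap.snd ℂ (Matrix m m ℂ) (Matrix k k ℂ)))) : LinkT P ∨ LinkF P := by
  have hNm : Nonempty m := Fintype.card_pos_iff.1 (by omega)
  have hNk : Nonempty k := Fintype.card_pos_iff.1 (by omega)
  set L1 := P.map (LinearMap.fst ℂ (Matrix m m ℂ) (Matrix k k ℂ)) with hL1
  set L2 := P.map (LinearMap.snd ℂ (Matrix m m ℂ) (Matrix k k ℂ)) with hL2
  have br1 : ∀ x ∈ L1, ∀ y ∈ L1, x * y - y * x ∈ L1 := by
    rintro _ ⟨p, hp, rfl⟩ _ ⟨q, hq, rfl⟩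
    exact ⟨p * q - q * p, br p hp q hq, rfl⟩
  have br2 : ∀ x ∈ L2, ∀ y ∈ L2, x * y - y * x ∈ L2 := by
    rintro _ ⟨p, hp, rfl⟩ _ ⟨q, hq, rfl⟩
    exact ⟨p * q - q * p, br p hp q hq, rfl⟩
  have st1 : ∀ x ∈ L1, xᴴ ∈ L1 := by
    rintro _ ⟨p, hp, rfl⟩
    exact ⟨_, st p hp, rfl⟩
  have st2 : ∀ x ∈ L2, xᴴ ∈ L2 := by
    rintro _ ⟨p, hp, rfl⟩
    exact ⟨_, st p hp, rfl⟩
  have o1 : (1 : Matrix m m ℂ) ∈ L1 := ⟨_, one1, rfl⟩
  have o2 : (1 : Matrix k k ℂ) ∈ L2 := ⟨_, one2, rfl⟩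
  have star_half : star (1 / 2 : ℂ) = 1 / 2 := by simp
  obtain ⟨h₁, h₂, hP, s1, s2, n1, n2, R1, R2⟩ : ∃ (h₁ : Matrix m m ℂ) (h₂ : Matrix k k ℂ), (h₁, h₂) ∈ P ∧ h₁ᴴ = h₁ ∧
      h₂ᴴ = h₂ ∧ (∀ c : ℂ, h₁ ≠ c • (1 : Matrix m m ℂ)) ∧ (∀ c : ℂ, h₂ ≠ c • (1 : Matrix k k ℂ)) ∧
      finrank ℂ L1 ≤ finrank ℂ (Ld L1 h₁ 0) + 2 * (Fintype.card m - 1) ∧
      finrank ℂ L2 ≤ finrank ℂ (Ld L2 h₂ 0) + 2 * (Fintype.card k - 1) := by
    rcases le_total (Fintype.card m) (Fintype.card k) with hle | hle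
    · obtain ⟨h₁, ⟨p, hp, hp1⟩, s1, n1, R1⟩ := special43 st1 o1 irr1 t1.1 (by omega)
      have hp1' : p.1 = h₁ := hp1
      have hq := P.smul_mem (1 / 2 : ℂ) (P.add_mem hp (st p hp))
      have hq1 : ((1 / 2 : ℂ) • (p + (p.1ᴴ, p.2ᴴ))).1 = h₁ := by
        change (1 / 2 : ℂ) • (p.1 + p.1ᴴ) = h₁
        rw [hp1', s1]
        module
      refine ⟨h₁, ((1 / 2 : ℂ) • (p + (p.1ᴴ, p.2ᴴ))).2, by rw [← hq1]; exact hq, s1, ?_, n1, ?_, R1, ?_⟩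
      · change ((1 / 2 : ℂ) • (p.2 + p.2ᴴ))ᴴ = (1 / 2 : ℂ) • (p.2 + p.2ᴴ)
        rw [Matrix.conjTranspose_smul, Matrix.conjTranspose_add, Matrix.conjTranspose_conjTranspose, add_comm, star_half]
      · intro c hc
        obtain ⟨d, hd⟩ := (g _ hq).2 ⟨c, hc⟩
        rw [hq1] at hd
        exact n1 d hd
      · have e1 := dims43 br one1 one2 g (h₁ := h₁) (h₂ := ((1 / 2 : ℂ) • (p + (p.1ᴴ, p.2ᴴ))).2)
          (by rw [← hq1]; exact hq)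
        have e11 : finrank ℂ L1 = finrank ℂ L2 := e1.1
        have e12 : finrank ℂ (Ld L1 h₁ 0) = finrank ℂ (Ld L2 ((1 / 2 : ℂ) • (p + (p.1ᴴ, p.2ᴴ))).2 0) := e1.2
        rw [← e11, ← e12]
        omega
    · obtain ⟨h₂, ⟨p, hp, hp1⟩, s2, n2, R2⟩ := special43 st2 o2 irr2 t2.1 (by omega)
      have hp1' : p.2 = h₂ := hp1
      have hq := P.smul_mem (1 / 2 : ℂ) (P.add_mem hp (st p hp))
      have hq1 : ((1 / 2 : ℂ) • (p + (p.1ᴴ, p.2ᴴ))).2 = h₂ := by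
        change (1 / 2 : ℂ) • (p.2 + p.2ᴴ) = h₂
        rw [hp1', s2]
        module
      refine ⟨((1 / 2 : ℂ) • (p + (p.1ᴴ, p.2ᴴ))).1, h₂, by rw [← hq1]; exact hq, ?_, s2, ?_, n2, ?_, R2⟩
      · change ((1 / 2 : ℂ) • (p.1 + p.1ᴴ))ᴴ = (1 / 2 : ℂ) • (p.1 + p.1ᴴ)
        rw [Matrix.conjTranspose_smul, Matrix.conjTranspose_add, Matrix.conjTranspose_conjTranspose, add_comm, star_half]
      · intro c hc
        obtain ⟨d, hd⟩ := (g _ hq).1 ⟨c, hc⟩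
        rw [hq1] at hd
        exact n2 d hd
      · have e1 := dims43 br one1 one2 g (h₁ := ((1 / 2 : ℂ) • (p + (p.1ᴴ, p.2ᴴ))).1) (h₂ := h₂)
          (by rw [← hq1]; exact hq)
        have e11 : finrank ℂ L1 = finrank ℂ L2 := e1.1
        have e12 : finrank ℂ (Ld L1 ((1 / 2 : ℂ) • (p + (p.1ᴴ, p.2ᴴ))).1 0) = finrank ℂ (Ld L2 h₂ 0) := e1.2
        rw [e11, e12]
        omega
  obtain ⟨E₁, Λ₁, S₁, _⟩ := exists_spec98 s1
  obtain ⟨E₂, Λ₂, S₂, _⟩ := exists_spec98 s2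
  have G1 : Gr L1 h₁ E₁ Λ₁ := ⟨S₁, br1, st1, ⟨_, hP, rfl⟩⟩
  have G2 : Gr L2 h₂ E₂ Λ₂ := ⟨S₂, br2, st2, ⟨_, hP, rfl⟩⟩
  obtain ⟨a, ga⟩ := good_of43 G1 o1 irr1 t1 hm n1 R1
  obtain ⟨b, gb⟩ := good_of43 G2 o2 irr2 t2 hk n2 R2
  have D : PG P (h₁ - (a : ℂ) • (1 : Matrix m m ℂ)) (fun μ => E₁ (μ + a)) (Λ₁.image (fun μ => μ - a))
      (h₂ - (b : ℂ) • (1 : Matrix k k ℂ)) (fun μ => E₂ (μ + b)) (Λ₂.image (fun μ => μ - b)) := by
    refine ⟨ga.gr.spec, gb.gr.spec, br, st, ?_, one1, one2⟩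
    have e1 : (h₁ - (a : ℂ) • (1 : Matrix m m ℂ), h₂ - (b : ℂ) • (1 : Matrix k k ℂ)) =
        (h₁, h₂) - (a : ℂ) • ((1 : Matrix m m ℂ), (0 : Matrix k k ℂ)) - (b : ℂ) • ((0 : Matrix m m ℂ), (1 : Matrix k k ℂ)) := by
      refine Prod.ext ?_ ?_
      · change _ = h₁ - (a : ℂ) • (1 : Matrix m m ℂ) - (b : ℂ) • (0 : Matrix m m ℂ)
        rw [smul_zero, sub_zero]
      · change _ = h₂ - (a : ℂ) • (0 : Matrix k k ℂ) - (b : ℂ) • (1 : Matrix k k ℂ)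
        rw [smul_zero, sub_zero]
    rw [e1]
    exact P.sub_mem (P.sub_mem hP (P.smul_mem _ one1)) (P.smul_mem _ one2)
  exact D.pair g ga gb

end pair

end GH
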