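import Pool.Agent.Helper14.GH.Fin
import Pool.Agent.Helper14.GP.Ty2
import Pool.Agent.Helper43.GP.PairN

/-!
Project GP (MP_b8862a_ag): if all the blocks are of full type, the Mumford-Tate group contains the group `InD`.
-/

set_option linter.unusedSectionVars false

open Matrix Module GH

namespace MH

variable {n : Type*} [Fintype n] [DecidableEq n]
variable {m w : ℤ} {Q : Matrix n n ℚ} {S : Finset ℤ} {P : ℤ → Matrix n n ℂ}

namespace IsHW

variable (H : IsHW w Q S P)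
include H

/-- the compressions of the Lie algebra to a block act irreducibly -/
theorem cp_irr43 {e : Matrix n n ℂ} (he : IsBlk P e) {k : ℕ} {W : Matrix n (Fin k) ℂ} {V : Matrix (Fin k) n ℂ}
    (k1 : V * W = 1) (k1' : W * V = e) {T : Matrix (Fin k) (Fin k) ℂ}
    (hT : ∀ x ∈ LH Q S P, T * (V * x * W) = (V * x * W) * T) : ∃ c : ℂ, T = c • (1 : Matrix (Fin k) (Fin k) ℂ) := by
  have hce : ∀ x ∈ LH Q S P, x * e = e * x := fun x hx => H.LH_EC hx he.mem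
  have h1 : W * T * V ∈ EC P := by
    refine H.EC_of_LH fun x hx => ?_
    calc W * T * V * x = W * T * (V * x) := by simp only [Matrix.mul_assoc]
      _ = W * T * ((V * x * W) * V) := by rw [← vx14 k1 k1' hce hx]
      _ = W * (T * (V * x * W)) * V := by simp only [Matrix.mul_assoc]
      _ = W * ((V * x * W) * T) * V := by rw [hT x hx]
      _ = W * (V * x * W) * T * V := by simp only [Matrix.mul_assoc]
      _ = x * W * T * V := by rw [← xw14 k1 k1' hce hx]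
      _ = x * (W * T * V) := by simp only [Matrix.mul_assoc]
  obtain ⟨c, hc⟩ := he.min _ h1
  refine ⟨c, ?_⟩
  calc T = (V * W) * (V * W) * T * (V * W) * (V * W) := by
        rw [k1, Matrix.one_mul, Matrix.one_mul, Matrix.mul_one, Matrix.mul_one]
    _ = V * (e * (W * T * V) * e) * W := by
        rw [← k1']
        simp only [Matrix.mul_assoc]
    _ = c • (V * (W * V) * W) := by rw [hc, k1', Matrix.mul_smul, Matrix.smul_mul]
    _ = c • (1 : Matrix (Fin k) (Fin k) ℂ) := by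
        rw [← Matrix.mul_assoc, k1, Matrix.one_mul, k1]

theorem cpL_irr43 {e : Matrix n n ℂ} (he : IsBlk P e) {k : ℕ} {W : Matrix n (Fin k) ℂ} {V : Matrix (Fin k) n ℂ}
    (k1 : V * W = 1) (k1' : W * V = e) (T : Matrix (Fin k) (Fin k) ℂ)
    (hT : ∀ x ∈ L1 (cpL W V (LH Q S P)), T * x = x * T) : ∃ c : ℂ, T = c • (1 : Matrix (Fin k) (Fin k) ℂ) :=
  H.cp_irr43 he k1 k1' fun x hx => hT _ (le_L1 ⟨x, hx, rfl⟩)

section basis

variable {B Bi : Matrix n n ℂ} (h1 : B * Bi = 1) (h2 : Bi * B = 1) (hM : Mw w Q S P = Bᴴ * B)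
include h1 h2 hM

/-- pairs of Hermitian blocks of rank at least three -/
theorem pair_herm43 (hty : ∀ f, IsBlk P f → 2 ≤ f.rank → TyBN Q S P f) {e f : Matrix n n ℂ} (he : IsBlk P e)
    (hf : IsBlk P f) (hes : (cj B Bi e)ᴴ = cj B Bi e) (hfs : (cj B Bi f)ᴴ = cj B Bi f) (he3 : 3 ≤ e.rank)
    (hf3 : 3 ≤ f.rank) : Prd (LH Q S P) e f ∨ Prd (LH Q S P) f e ∨ Lnk (LH Q S P) e f := by
  classical
  have hee' : cj B Bi e * cj B Bi e = cj B Bi e := by rw [cj_mul h2, he.idem]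
  have hff' : cj B Bi f * cj B Bi f = cj B Bi f := by rw [cj_mul h2, hf.idem]
  obtain ⟨a, u₁, hu₁, huu₁⟩ : ∃ (k : ℕ) (u : Matrix n (Fin k) ℂ), uᴴ * u = 1 ∧ u * uᴴ = cj B Bi e :=
    ⟨_, exists_onbE hee' hes⟩
  obtain ⟨b, u₂, hu₂, huu₂⟩ : ∃ (k : ℕ) (u : Matrix n (Fin k) ℂ), uᴴ * u = 1 ∧ u * uᴴ = cj B Bi f :=
    ⟨_, exists_onbE hff' hfs⟩
  have hvw : ∀ {k : ℕ} {u : Matrix n (Fin k) ℂ}, uᴴ * u = 1 → (uᴴ * B) * (Bi * u) = 1 := by
    intro k u hu
    calc (uᴴ * B) * (Bi * u) = uᴴ * (B * Bi) * u := by simp only [Matrix.mul_assoc]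
      _ = 1 := by rw [h1, Matrix.mul_one, hu]
  have hwv : ∀ {k : ℕ} {u : Matrix n (Fin k) ℂ} {g : Matrix n n ℂ}, u * uᴴ = cj B Bi g →
      (Bi * u) * (uᴴ * B) = g := by
    intro k u g huu
    calc (Bi * u) * (uᴴ * B) = Bi * (u * uᴴ) * B := by simp only [Matrix.mul_assoc]
      _ = cj Bi B (cj B Bi g) := by rw [huu]; rfl
      _ = g := cj_cj h2 _
  have hce : ∀ x ∈ LH Q S P, x * e = e * x := fun x hx => H.LH_EC hx he.mem
  have hcf : ∀ x ∈ LH Q S P, x * f = f * x := fun x hx => H.LH_EC hx hf.mem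
  have ra : a = e.rank := (coord_rank43 (hvw hu₁) (hwv huu₁)).symm
  have rb : b = f.rank := (coord_rank43 (hvw hu₂) (hwv huu₂)).symm
  refine of_pair14 (hvw hu₁) (hwv huu₁) hce (hvw hu₂) (hwv huu₂) hcf fun g => ?_
  refine pairN ?_ ?_ ?_ ?_ ?_ ?_ (by rw [Fintype.card_fin]; omega) (by rw [Fintype.card_fin]; omega) g ?_ ?_
  · exact PP_br (hvw hu₁) (hwv huu₁) hce (hvw hu₂) (hwv huu₂) hcf fun x hx y hy => LH_br hx hy
  · rintro _ ⟨x, hx, c, d, rfl⟩
    refine ⟨Bi * (B * x * Bi)ᴴ * B, H.LH_st h1 h2 hM hx, star c, star d, ?_⟩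
    have key : ∀ {k : ℕ} (u : Matrix n (Fin k) ℂ) (c : ℂ),
        ((uᴴ * B) * x * (Bi * u) + c • (1 : Matrix (Fin k) (Fin k) ℂ))ᴴ =
          (uᴴ * B) * (Bi * (B * x * Bi)ᴴ * B) * (Bi * u) + star c • (1 : Matrix (Fin k) (Fin k) ℂ) := by
      intro k u c
      rw [Matrix.conjTranspose_add, Matrix.conjTranspose_smul, Matrix.conjTranspose_one]
      congr 1
      calc ((uᴴ * B) * x * (Bi * u))ᴴ = (uᴴ * (B * x * Bi) * u)ᴴ := by simp only [Matrix.mul_assoc]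
        _ = uᴴ * (B * x * Bi)ᴴ * u := by
          rw [Matrix.conjTranspose_mul, Matrix.conjTranspose_mul uᴴ, Matrix.conjTranspose_conjTranspose]
          exact (Matrix.mul_assoc _ _ _).symm
        _ = uᴴ * ((B * Bi) * (B * x * Bi)ᴴ * (B * Bi)) * u := by rw [h1, Matrix.one_mul, Matrix.mul_one]
        _ = _ := by simp only [Matrix.mul_assoc]
    exact Prod.ext (key u₁ c) (key u₂ d)
  · exact ⟨0, (LH Q S P).zero_mem, 1, 0, by simp⟩
  · exact ⟨0, (LH Q S P).zero_mem, 0, 1, by simp⟩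
  · rw [PP_fst]
    exact H.cpL_irr43 he (hvw hu₁) (hwv huu₁)
  · rw [PP_snd]
    exact H.cpL_irr43 hf (hvw hu₂) (hwv huu₂)
  · rw [PP_fst, L1_cpL (hvw hu₁)]
    exact (hty e he (by omega)).any (hvw hu₁) (hwv huu₁)
  · rw [PP_snd, L1_cpL (hvw hu₂)]
    exact (hty f hf (by omega)).any (hvw hu₂) (hwv huu₂)

/-- pairs of blocks of rank at least three -/
theorem pair_three43 (hty : ∀ f, IsBlk P f → 2 ≤ f.rank → TyBN Q S P f) {e f : Matrix n n ℂ} (he : IsBlk P e)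
    (hf : IsBlk P f) (he3 : 3 ≤ e.rank) (hf3 : 3 ≤ f.rank) :
    Prd (LH Q S P) e f ∨ Prd (LH Q S P) f e ∨ Lnk (LH Q S P) e f := by
  obtain ⟨e', he', hes, a1, a2⟩ := H.herm_rep h1 h2 hM he
  obtain ⟨f', hf', hfs, b1, b2⟩ := H.herm_rep h1 h2 hM hf
  have hrke : e'.rank = e.rank := by
    have h4 := rank_of_range (F := (1 : Matrix n n ℂ)) a1 a2 (mul_one 1) (by rw [mul_one, one_mul])
      (by rw [mul_one, one_mul])
    rwa [mul_one, mul_one] at h4
  have hrkf : f'.rank = f.rank := by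
    have h4 := rank_of_range (F := (1 : Matrix n n ℂ)) b1 b2 (mul_one 1) (by rw [mul_one, one_mul])
      (by rw [mul_one, one_mul])
    rwa [mul_one, mul_one] at h4
  have h4 := H.pair_herm43 h1 h2 hM hty he' hf' hes hfs (by omega) (by omega)
  exact lnk_of_range' a2 a1 b2 b1 (fun x hx => H.LH_EC hx he.mem) (fun x hx => H.LH_EC hx hf.mem) h4

/-- pairs, the first of size two -/
theorem pair_of_two43 (hty : ∀ f, IsBlk P f → 2 ≤ f.rank → TyBN Q S P f) {e f : Matrix n n ℂ} (he : IsBlk P e)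
    (hf : IsBlk P f) {a b : ℕ} {w₁ : Matrix n (Fin a) ℂ} {v₁ : Matrix (Fin a) n ℂ} {w₂ : Matrix n (Fin b) ℂ}
    {v₂ : Matrix (Fin b) n ℂ} (k1 : v₁ * w₁ = 1) (k1' : w₁ * v₁ = e) (k2 : v₂ * w₂ = 1) (k2' : w₂ * v₂ = f)
    (he2 : e.rank = 2) (ha : a = 2) (hf2 : 2 ≤ f.rank) :
    Prd (LH Q S P) e f ∨ Prd (LH Q S P) f e ∨ Lnk (LH Q S P) e f := by
  have hce : ∀ x ∈ LH Q S P, x * e = e * x := fun x hx => H.LH_EC hx he.mem
  have hcf : ∀ x ∈ LH Q S P, x * f = f * x := fun x hx => H.LH_EC hx hf.mem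
  refine of_pair14 k1 k1' hce k2 k2' hcf fun g => Or.inl ?_
  have t1 := ((hty e he (by omega)).any k1 k1').tyF
  have t2 := ((hty f hf hf2).any k2 k2').tyF
  refine pair_two (PP_br k1 k1' hce k2 k2' hcf fun x hx y hy => LH_br hx hy) g (by rw [Fintype.card_fin, ha]) ?_ ?_
  · intro x
    have hx0 : x - ((2 : ℂ)⁻¹ * x.trace) • (1 : Matrix (Fin a) (Fin a) ℂ) ∈ cpL w₁ v₁ (L1 (LH Q S P)) := by
      have hsl : ∀ x : Matrix (Fin a) (Fin a) ℂ, x.trace = 0 → x ∈ cpL w₁ v₁ (L1 (LH Q S P)) := by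
        rcases t1.2 with h3 | h3
        · exact h3
        · rw [Fintype.card_fin, ha] at h3
          omega
      apply hsl
      have ha' : ((a : ℕ) : ℂ) = 2 := by
        rw [ha]
        norm_num
      rw [Matrix.trace_sub, Matrix.trace_smul, Matrix.trace_one, Fintype.card_fin, smul_eq_mul, ha']
      ring
    have hx1 : x ∈ L1 (cpL w₁ v₁ (LH Q S P)) := by
      rw [L1_cpL k1]
      have e1 : x = (x - ((2 : ℂ)⁻¹ * x.trace) • (1 : Matrix (Fin a) (Fin a) ℂ)) +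
          ((2 : ℂ)⁻¹ * x.trace) • (1 : Matrix (Fin a) (Fin a) ℂ) := by abel
      rw [e1]
      refine Submodule.add_mem _ hx0 (Submodule.smul_mem _ _ ?_)
      exact ⟨1, one_L1, by rw [Matrix.mul_one, k1]⟩
    obtain ⟨_, ⟨z, hz, rfl⟩, c, rfl⟩ := mem_L1.1 hx1
    exact ⟨_, z, hz, c, 0, rfl⟩
  · rw [PP_snd, L1_cpL k2]
    exact t2

/-- **The Lie algebra.** -/
theorem LH_of_com43 (hty : ∀ f, IsBlk P f → 2 ≤ f.rank → TyBN Q S P f) {X : Matrix n n ℂ}
    (hX1 : ∀ T, SI S P T → X * T = T * X) (hX2 : Xᵀ * toC Q + toC Q * X = 0)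
    (hX3 : ∀ f ∈ EC P, (X * f).trace = 0) : X ∈ LH Q S P := by
  classical
  obtain ⟨ι, _, _, e, r, W, V, D, hblk, hr, hherm⟩ := H.exists_FD h1 h2 hM
  obtain ⟨_, _, Qi, _, _, q1, q2, _⟩ := H.exists_basis
  refine FD.glue (fun x hx y hy => LH_br hx hy) D h1 h2 (fun x hx => H.LH_st h1 h2 hM hx) (fun x hx => hx.1)
    ⟨⟨toC Q, Qi, q1, q2⟩, rfl⟩ ?_ ?_ ?_ hX2 ?_
  · intro i hi
    exact ((hty _ (hblk i) (by rw [hr]; exact hi)).any (D.vw i) (D.wv i)).tyF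
  · intro i j _ hi hj
    by_cases hi3 : r i = 2
    · exact H.pair_of_two43 h1 h2 hM hty (hblk i) (hblk j) (D.vw i) (D.wv i) (D.vw j) (D.wv j)
        (by rw [hr, hi3]) hi3 (by rw [hr]; exact hj)
    by_cases hj3 : r j = 2
    · have h3 := H.pair_of_two43 h1 h2 hM hty (hblk j) (hblk i) (D.vw j) (D.wv j) (D.vw i) (D.wv i)
        (by rw [hr, hj3]) hj3 (by rw [hr]; exact hi)
      rcases h3 with h4 | h4 | h4
      · exact Or.inr (Or.inl h4)
      · exact Or.inl h4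
      · exact Or.inr (Or.inr (H.lnk_symm h1 h2 hM (hherm j) (hherm i) h4))
    · exact H.pair_three43 h1 h2 hM hty (hblk i) (hblk j) (by rw [hr]; omega) (by rw [hr]; omega)
  · intro T hT
    exact hX1 T (H.SI_iff_LH.2 hT)
  · intro f hf _
    exact hX3 f (H.EC_of_LH fun X hX => (hf X hX).symm)

end basis

/-- **The Mumford-Tate group contains the group `InD`.** -/
theorem InD_MT43 (hty : ∀ f, IsBlk P f → 2 ≤ f.rank → TyBN Q S P f) {g : GL n ℂ}
    (hg : InD Q S P (g : Matrix n n ℂ)) : g ∈ MT S P := by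
  obtain ⟨B, Bi, Qi, h1, h2, q1, q2, hM⟩ := H.exists_basis
  intro a b t ht
  refine D_fix (L := (LH Q S P : Set (Matrix n n ℂ))) h1 h2 (fun X hX => H.LH_st h1 h2 hM hX) (fun X hX => hX.1) ?_ ?_
    ?_ hg.2.1 ?_
  · intro h0
    have h3 := congrArg Matrix.det q1
    rw [Matrix.det_mul, h0, zero_mul, Matrix.det_one] at h3
    exact zero_ne_one h3
  · intro X hX1 hX2 hX3
    have hX : X ∈ LH Q S P := by
      refine H.LH_of_com43 h1 h2 hM hty (fun T hT => hX1 T ?_) hX2 fun f hf => hX3 f ?_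
      · exact H.SI_iff_LH.1 hT
      · exact fun Y hY => H.LH_EC hY hf
    exact hX.2 a b t ht
  · intro T hT
    exact hg.1 T (H.SI_iff_LH.2 hT)
  · intro e he
    exact hg.2.2 e (H.blk_of_irr he)

end IsHW

end MH
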