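import Pool.Agent.Helper43.GP.Defs
import Pool.Agent.Helper62.GH.Onto
import Pool.Agent.Helper48.GH.GalE1

/-!
Project GP: on a Lie algebra of full type, what commutes with a Hermitian element that is not a scalar and with the elements
of nonzero degree is a scalar.
-/

set_option linter.unusedSectionVars false
set_option linter.unusedVariables false

open Matrix Module

namespace GH

open MH

variable {n : Type*} [Fintype n] [DecidableEq n] {L : Submodule ℂ (Matrix n n ℂ)} {h : Matrix n n ℂ}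
  {E : ℝ → Matrix n n ℂ} {Λ : Finset ℝ}

/-- the ideal generated by the elements of nonzero degree -/
def IA43 (L : Submodule ℂ (Matrix n n ℂ)) (h : Matrix n n ℂ) : Set (Matrix n n ℂ) :=
  {z | (∃ ν : ℝ, ν ≠ 0 ∧ z ∈ Ld L h ν) ∨
    ∃ μ ν : ℝ, μ ≠ 0 ∧ ν ≠ 0 ∧ ∃ x ∈ Ld L h μ, ∃ y ∈ Ld L h ν, z = x * y - y * x}

theorem IA_le43 (G : Gr L h E Λ) : Submodule.span ℂ (IA43 L h) ≤ brk L := by
  rw [Submodule.span_le]
  rintro z (⟨ν, hν, hz⟩ | ⟨μ, ν, _, _, x, hx, y, hy, rfl⟩)
  · have h1 : h * z - z * h ∈ brk L := Submodule.subset_span ⟨h, G.mem, z, hz.1, rfl⟩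
    rw [hz.2] at h1
    have h2 : ((ν : ℂ))⁻¹ • ((ν : ℂ) • z) ∈ brk L := (brk L).smul_mem _ h1
    rwa [smul_smul, inv_mul_cancel₀ (by exact_mod_cast hν), one_smul] at h2
  · exact Submodule.subset_span ⟨x, hx.1, y, hy.1, rfl⟩

theorem IA_ideal43 (G : Gr L h E Λ) {x y : Matrix n n ℂ} (hx : x ∈ L) (hy : y ∈ Submodule.span ℂ (IA43 L h)) :
    x * y - y * x ∈ Submodule.span ℂ (IA43 L h) := by
  have hA : ∀ {ν : ℝ}, ν ≠ 0 → ∀ {z : Matrix n n ℂ}, z ∈ Ld L h ν → z ∈ Submodule.span ℂ (IA43 L h) :=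
    fun {ν} hν {z} hz => Submodule.subset_span (Or.inl ⟨ν, hν, hz⟩)
  have hB : ∀ {μ ν : ℝ}, μ ≠ 0 → ν ≠ 0 → ∀ {a b : Matrix n n ℂ}, a ∈ Ld L h μ → b ∈ Ld L h ν →
      a * b - b * a ∈ Submodule.span ℂ (IA43 L h) :=
    fun {μ ν} hμ hν {a b} ha hb => Submodule.subset_span (Or.inr ⟨μ, ν, hμ, hν, a, ha, b, hb, rfl⟩)
  have key : ∀ κ : ℝ, ∀ x ∈ Ld L h κ, x * y - y * x ∈ Submodule.span ℂ (IA43 L h) := by
    intro κ x hx
    induction hy using Submodule.span_induction with
    | mem z hz =>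
      rcases hz with ⟨ν, hν, hz⟩ | ⟨μ, ν, hμ, hν, a, ha, b, hb, rfl⟩
      · by_cases hκ : κ = 0
        · subst hκ
          have h1 := G.br_Ld hx hz
          rw [zero_add] at h1
          exact hA hν h1
        · exact hB hκ hν hx hz
      · by_cases hκ : κ = 0
        · subst hκ
          have h1 := G.br_Ld hx ha
          have h2 := G.br_Ld hx hb
          rw [zero_add] at h1 h2
          have e1 : x * (a * b - b * a) - (a * b - b * a) * x =
              ((x * a - a * x) * b - b * (x * a - a * x)) + (a * (x * b - b * x) - (x * b - b * x) * a) := by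
            noncomm_ring
          rw [e1]
          exact Submodule.add_mem _ (hB hμ hν h1 hb) (hB hμ hν ha h2)
        · have h1 := G.br_Ld ha hb
          by_cases h0 : μ + ν = 0
          · rw [h0] at h1
            have h2 := G.br_Ld hx h1
            rw [add_zero] at h2
            exact hA hκ h2
          · exact hB hκ h0 hx h1
    | zero => rw [mul_zero, zero_mul, sub_zero]; exact Submodule.zero_mem _
    | add a b _ _ ha hb =>
      have e1 : x * (a + b) - (a + b) * x = (x * a - a * x) + (x * b - b * x) := by noncomm_ring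
      rw [e1]
      exact Submodule.add_mem _ ha hb
    | smul c a _ ha =>
      have e1 : x * (c • a) - (c • a) * x = c • (x * a - a * x) := by
        rw [mul_smul_comm, smul_mul_assoc, smul_sub]
      rw [e1]
      exact Submodule.smul_mem _ c ha
  refine G.induct (p := fun x => x * y - y * x ∈ Submodule.span ℂ (IA43 L h)) (key 0) (fun ν _ => key ν) ?_ ?_ hx
  · rw [zero_mul, mul_zero, sub_zero]
    exact Submodule.zero_mem _
  · intro a b ha hb
    have e1 : (a + b) * y - y * (a + b) = (a * y - y * a) + (b * y - y * b) := by noncomm_ring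
    rw [e1]
    exact Submodule.add_mem _ ha hb

/-- what commutes with `h` and with the elements of nonzero degree is a scalar -/
theorem nr_full43 (G : Gr L h E Λ) (irr : ∀ T : Matrix n n ℂ, (∀ x ∈ L, T * x = x * T) → ∃ c : ℂ, T = c • (1 : Matrix n n ℂ))
    (ty : TyF L) (h2 : 2 ≤ Fintype.card n) (hns : ∀ c : ℂ, h ≠ c • (1 : Matrix n n ℂ)) {T : Matrix n n ℂ}
    (hT : ∀ ν : ℝ, ν ≠ 0 → ∀ x ∈ Ld L h ν, T * x = x * T) : ∃ c : ℂ, T = c • (1 : Matrix n n ℂ) := by
  have hle := IA_le43 G
  have hN : Submodule.span ℂ (IA43 L h) = brk L := by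
    refine simple_ty ty h2 hle (fun x hx y hy => IA_ideal43 G (brk_le62 G.br hx) hy) ?_
    intro h0
    obtain ⟨c, hc⟩ := irr h fun x hx => by
      refine G.induct (p := fun x => h * x = x * h) (fun x hx => ?_) (fun ν hν x hx => ?_) (by simp)
        (fun a b ha hb => by rw [mul_add, add_mul, ha, hb]) hx
      · have h1 := hx.2
        rw [Complex.ofReal_zero, zero_smul, sub_eq_zero] at h1
        exact h1
      · have h1 : x ∈ Submodule.span ℂ (IA43 L h) := Submodule.subset_span (Or.inl ⟨ν, hν, hx⟩)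
        rw [h0, Submodule.mem_bot] at h1
        rw [h1, mul_zero, zero_mul]
    exact hns c hc
  have hcom : ∀ y ∈ brk L, T * y = y * T := by
    intro y hy
    rw [← hN] at hy
    induction hy using Submodule.span_induction with
    | mem z hz =>
      rcases hz with ⟨ν, hν, hz⟩ | ⟨μ, ν, hμ, hν, a, ha, b, hb, rfl⟩
      · exact hT ν hν z hz
      · have h3 := hT μ hμ a ha
        have h4 := hT ν hν b hb
        rw [mul_sub, sub_mul, ← mul_assoc, ← mul_assoc, h3, h4, mul_assoc a T, mul_assoc b T, h3, h4, mul_assoc, mul_assoc]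
    | zero => rw [mul_zero, zero_mul]
    | add a b _ _ ha hb => rw [mul_add, add_mul, ha, hb]
    | smul c a _ ha => rw [mul_smul_comm, smul_mul_assoc, ha]
  refine irr T fun x hx => ?_
  obtain ⟨y, hy, z, hz, rfl⟩ := Submodule.mem_sup.1 (MH.TyF.le48 ty h2 hx)
  obtain ⟨c, rfl⟩ := Submodule.mem_span_singleton.1 hz
  rw [mul_add, add_mul, hcom y hy, mul_smul_comm, smul_mul_assoc, mul_one, one_mul]

end GH
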