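import Pool.Agent.Helper43.GP.Cen

/-!
Project GP: in a Lie algebra of full type there is a Hermitian element with a large centraliser.
-/

set_option linter.unusedSectionVars false
set_option linter.unusedVariables false

open Matrix Module

namespace GH

open MH

variable {n : Type*} [Fintype n] [DecidableEq n] {L : Submodule ℂ (Matrix n n ℂ)} {h : Matrix n n ℂ}
  {E : ℝ → Matrix n n ℂ} {Λ : Finset ℝ}

theorem finrank_ker_dot43 {φ : n → ℂ} (hφ : φ ≠ 0) :
    ∃ K : Submodule ℂ (n → ℂ), finrank ℂ K + 1 = Fintype.card n ∧ ∀ v, φ ⬝ᵥ v = 0 → v ∈ K := by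
  let f : (n → ℂ) →ₗ[ℂ] ℂ :=
    { toFun := fun v => φ ⬝ᵥ v
      map_add' := fun a b => dotProduct_add _ _ _
      map_smul' := fun c a => by rw [dotProduct_smul]; rfl }
  have hf : f ≠ 0 := by
    intro h0
    apply hφ
    funext i
    have h1 := LinearMap.congr_fun h0 (Pi.single i 1)
    change φ ⬝ᵥ Pi.single i 1 = 0 at h1
    rwa [dotProduct_single, mul_one] at h1
  refine ⟨LinearMap.ker f, ?_, fun v hv => hv⟩
  have h1 := Module.Dual.finrank_ker_add_one_of_ne_zero hf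
  rwa [Module.finrank_fintype_fun_eq_card] at h1

theorem codim43 {φ1 φ2 : n → ℂ} (hφ1 : φ1 ≠ 0) (hφ2 : φ2 ≠ 0) (f : L →ₗ[ℂ] (n → ℂ) × (n → ℂ))
    (hf : ∀ x, φ1 ⬝ᵥ (f x).1 = 0 ∧ φ2 ⬝ᵥ (f x).2 = 0) (hk : ∀ x : L, f x = 0 → (x : Matrix n n ℂ) ∈ Ld L h 0) :
    finrank ℂ L ≤ finrank ℂ (Ld L h 0) + 2 * (Fintype.card n - 1) := by
  obtain ⟨K1, a1, a2⟩ := finrank_ker_dot43 hφ1
  obtain ⟨K2, b1, b2⟩ := finrank_ker_dot43 hφ2
  let g : L →ₗ[ℂ] K1 × K2 :=
    { toFun := fun x => (⟨(f x).1, a2 _ (hf x).1⟩, ⟨(f x).2, b2 _ (hf x).2⟩)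
      map_add' := fun x y => by
        refine Prod.ext (Subtype.ext ?_) (Subtype.ext ?_)
        · change (f (x + y)).1 = _
          rw [map_add]
          rfl
        · change (f (x + y)).2 = _
          rw [map_add]
          rfl
      map_smul' := fun c x => by
        refine Prod.ext (Subtype.ext ?_) (Subtype.ext ?_)
        · change (f (c • x)).1 = _
          rw [map_smul]
          rfl
        · change (f (c • x)).2 = _
          rw [map_smul]
          rfl }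
  have h1 := g.finrank_range_add_finrank_ker
  have h2 : finrank ℂ (LinearMap.range g) ≤ finrank ℂ (K1 × K2) := Submodule.finrank_le _
  rw [Module.finrank_prod] at h2
  have h3 : finrank ℂ (LinearMap.ker g) ≤ finrank ℂ (Ld L h 0) := by
    have h4 : finrank ℂ ((LinearMap.ker g).map L.subtype) = finrank ℂ (LinearMap.ker g) :=
      LinearEquiv.finrank_eq (Submodule.equivMapOfInjective _ (Submodule.subtype_injective _) _).symm
    rw [← h4]
    refine Submodule.finrank_mono ?_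
    rintro y ⟨x, hx, rfl⟩
    refine hk x ?_
    have h5 : g x = 0 := hx
    refine Prod.ext ?_ ?_
    · exact congrArg (fun p => (p.1 : n → ℂ)) h5
    · exact congrArg (fun p => (p.2 : n → ℂ)) h5
  omega

open ComplexOrder in
theorem vv_ne43 {v : n → ℂ} (hv : v ≠ 0) : star v ⬝ᵥ v ≠ 0 := by
  rw [Ne, dotProduct_star_self_eq_zero]
  exact hv

/-- all matrices -/
theorem spe_all43 (hL : ∀ x : Matrix n n ℂ, x ∈ L) (hn : 2 ≤ Fintype.card n) :
    ∃ h ∈ L, hᴴ = h ∧ (∀ c : ℂ, h ≠ c • (1 : Matrix n n ℂ)) ∧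
      finrank ℂ L ≤ finrank ℂ (Ld L h 0) + 2 * (Fintype.card n - 1) := by
  obtain ⟨i, j, hij⟩ := Fintype.exists_pair_of_one_lt_card (by omega : 1 < Fintype.card n)
  set v : n → ℂ := Pi.single i 1 with hv
  have hv0 : v ≠ 0 := by
    intro h0
    have h1 := congrFun h0 i
    rw [hv, Pi.single_eq_same, Pi.zero_apply] at h1
    exact one_ne_zero h1
  have ha := vv_ne43 hv0
  refine ⟨vecMulVec v (star v), hL _, ?_, ?_, ?_⟩
  · rw [conjTranspose_vecMulVec, star_star]
  · intro c hc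
    have h1 := congrFun (congrFun hc i) i
    have h2 := congrFun (congrFun hc j) j
    rw [vecMulVec_apply, Matrix.smul_apply, Matrix.one_apply_eq, smul_eq_mul, mul_one] at h1 h2
    rw [← h1] at h2
    rw [hv] at h2
    simp [hij.symm] at h2
  · refine codim43 (φ1 := star v) (φ2 := v) (by rwa [Ne, star_eq_zero]) hv0
      { toFun := fun x => ((star v ⬝ᵥ v) • ((x : Matrix n n ℂ) *ᵥ v) - (star v ⬝ᵥ (x : Matrix n n ℂ) *ᵥ v) • v,
          (star v ⬝ᵥ v) • (star v ᵥ* (x : Matrix n n ℂ)) - (star v ⬝ᵥ (x : Matrix n n ℂ) *ᵥ v) • star v)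
        map_add' := fun x y => ?_
        map_smul' := fun c x => ?_ } ?_ ?_
    · refine Prod.ext ?_ ?_
      · change (star v ⬝ᵥ v) • (((x : Matrix n n ℂ) + (y : Matrix n n ℂ)) *ᵥ v) -
          (star v ⬝ᵥ ((x : Matrix n n ℂ) + (y : Matrix n n ℂ)) *ᵥ v) • v = _ + _
        rw [Matrix.add_mulVec, dotProduct_add, smul_add, add_smul]
        exact add_sub_add_comm _ _ _ _
      · change (star v ⬝ᵥ v) • (star v ᵥ* ((x : Matrix n n ℂ) + (y : Matrix n n ℂ))) -
          (star v ⬝ᵥ ((x : Matrix n n ℂ) + (y : Matrix n n ℂ)) *ᵥ v) • star v = _ + _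
        rw [Matrix.vecMul_add, Matrix.add_mulVec, dotProduct_add, smul_add, add_smul]
        exact add_sub_add_comm _ _ _ _
    · refine Prod.ext ?_ ?_
      · change (star v ⬝ᵥ v) • ((c • (x : Matrix n n ℂ)) *ᵥ v) - (star v ⬝ᵥ (c • (x : Matrix n n ℂ)) *ᵥ v) • v = c • _
        rw [Matrix.smul_mulVec, dotProduct_smul, smul_sub, smul_eq_mul, smul_comm c, smul_smul c, smul_smul]
      · change (star v ⬝ᵥ v) • (star v ᵥ* (c • (x : Matrix n n ℂ))) -
          (star v ⬝ᵥ (c • (x : Matrix n n ℂ)) *ᵥ v) • star v = c • _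
        rw [Matrix.vecMul_smul, Matrix.smul_mulVec, dotProduct_smul, smul_sub, smul_eq_mul, smul_comm c, smul_smul c]
    · intro x
      constructor
      · change star v ⬝ᵥ ((star v ⬝ᵥ v) • ((x : Matrix n n ℂ) *ᵥ v) - (star v ⬝ᵥ (x : Matrix n n ℂ) *ᵥ v) • v) = 0
        rw [dotProduct_sub, dotProduct_smul, dotProduct_smul, smul_eq_mul, smul_eq_mul]
        ring
      · change v ⬝ᵥ ((star v ⬝ᵥ v) • (star v ᵥ* (x : Matrix n n ℂ)) - (star v ⬝ᵥ (x : Matrix n n ℂ) *ᵥ v) • star v) = 0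
        rw [dotProduct_sub, dotProduct_smul, dotProduct_smul, smul_eq_mul, smul_eq_mul, dotProduct_comm v (star v),
          dotProduct_comm v, ← dotProduct_mulVec]
        ring
    · intro x hx
      have e1 : (star v ⬝ᵥ v) • ((x : Matrix n n ℂ) *ᵥ v) - (star v ⬝ᵥ (x : Matrix n n ℂ) *ᵥ v) • v = 0 :=
        congrArg Prod.fst hx
      have e2 : (star v ⬝ᵥ v) • (star v ᵥ* (x : Matrix n n ℂ)) - (star v ⬝ᵥ (x : Matrix n n ℂ) *ᵥ v) • star v = 0 :=
        congrArg Prod.snd hx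
      refine ⟨x.2, ?_⟩
      rw [Complex.ofReal_zero, zero_smul, mul_vecMulVec, vecMulVec_mul]
      have e3 : (star v ⬝ᵥ v) • (vecMulVec v (star v ᵥ* (x : Matrix n n ℂ)) -
          vecMulVec ((x : Matrix n n ℂ) *ᵥ v) (star v)) = 0 := by
        rw [smul_sub, ← vecMulVec_smul, sub_eq_zero.1 e2, ← smul_vecMulVec, sub_eq_zero.1 e1, vecMulVec_smul,
          smul_vecMulVec, sub_self]
      exact (smul_eq_zero.1 e3).resolve_left ha

end GH
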