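import Pool.Agent.Helper43.GP.Spe

/-!
Project GP: a Hermitian element with a large centraliser for the orthogonal and the symplectic type.
-/

set_option linter.unusedSectionVars false
set_option linter.unusedVariables false

open Matrix Module

namespace GH

open MH

variable {n : Type*} [Fintype n] [DecidableEq n] {L : Submodule ℂ (Matrix n n ℂ)} {h : Matrix n n ℂ}
  {E : ℝ → Matrix n n ℂ} {Λ : Finset ℝ}

open ComplexOrder in
/-- the form is unitary up to a scalar -/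
theorem unit_form43 (st : ∀ x ∈ L, xᴴ ∈ L)
    (irr : ∀ T : Matrix n n ℂ, (∀ x ∈ L, T * x = x * T) → ∃ c : ℂ, T = c • (1 : Matrix n n ℂ)) {Q Qi : Matrix n n ℂ}
    (h1 : Q * Qi = 1) (hn : 0 < Fintype.card n) (hsk : ∀ x : Matrix n n ℂ, xᵀ * Q + Q * x = 0 → x ∈ L)
    (hL : ∀ x ∈ L, ∃ c : ℂ, xᵀ * Q + Q * x = c • Q) : ∃ c : ℂ, c ≠ 0 ∧ star c = c ∧ Qᴴ * Q = c • (1 : Matrix n n ℂ) := by
  have hne : Nonempty n := Fintype.card_pos_iff.1 hn
  have hn' : (Fintype.card n : ℂ) ≠ 0 := by exact_mod_cast hn.ne'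
  have key : ∀ y : Matrix n n ℂ, yᵀ * Q + Q * y = 0 → Qᴴ * Q * y = y * (Qᴴ * Q) := by
    intro y hy
    obtain ⟨c, hc⟩ := hL _ (st y (hsk y hy))
    have e1 := form_c43 (c := 0) h1 hn (by rw [hy, zero_smul])
    have e2 : y.trace = 0 := by
      have e3 : y.trace / (Fintype.card n : ℂ) = 0 := by
        rcases mul_eq_zero.1 e1.symm with e4 | e4
        · exact absurd e4 two_ne_zero
        · exact e4
      exact (div_eq_zero_iff.1 e3).resolve_right hn'
    have e3 := form_c43 h1 hn hc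
    rw [Matrix.trace_conjTranspose, e2, star_zero, zero_div, mul_zero] at e3
    rw [e3, zero_smul] at hc
    have e4 := congrArg Matrix.conjTranspose hc
    rw [Matrix.conjTranspose_add, Matrix.conjTranspose_mul, Matrix.conjTranspose_mul, Matrix.conjTranspose_conjTranspose,
      Matrix.conjTranspose_zero, show (yᴴᵀ)ᴴ = yᵀ from by ext i j; simp] at e4
    rw [Matrix.mul_assoc, eq_neg_of_add_eq_zero_right hy, Matrix.mul_neg, ← Matrix.mul_assoc,
      eq_neg_of_add_eq_zero_left e4, Matrix.neg_mul, neg_neg, Matrix.mul_assoc]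
  obtain ⟨c, hc⟩ := irr (Qᴴ * Q) fun x hx => by
    obtain ⟨c, hc⟩ := hL x hx
    have e1 := key _ (tz_skew43 h1 hn hc)
    have e2 : x = tz43 x + (x.trace / (Fintype.card n : ℂ)) • (1 : Matrix n n ℂ) := by
      rw [tz_apply43, sub_add_cancel]
    rw [e2, Matrix.mul_add, Matrix.add_mul, e1, Matrix.mul_smul, Matrix.smul_mul, Matrix.mul_one, Matrix.one_mul]
  refine ⟨c, ?_, ?_, hc⟩
  · rintro rfl
    rw [zero_smul] at hc
    have hQ0 : Q = 0 := Matrix.conjTranspose_mul_self_eq_zero.1 hc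
    rw [hQ0, Matrix.zero_mul] at h1
    exact zero_ne_one h1
  · have e1 := congrArg Matrix.conjTranspose hc
    rw [Matrix.conjTranspose_mul, Matrix.conjTranspose_conjTranspose, hc, Matrix.conjTranspose_smul,
      Matrix.conjTranspose_one] at e1
    obtain ⟨i⟩ := hne
    have e2 := congrFun (congrFun e1 i) i
    rw [Matrix.smul_apply, Matrix.smul_apply, Matrix.one_apply_eq, smul_eq_mul, smul_eq_mul, mul_one, mul_one] at e2
    exact e2.symm

/-- an isotropic vector -/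
theorem exists_iso43 {Q : Matrix n n ℂ} {ε : ℂ} (hε : ε = 1 ∨ ε = -1) (hQ : Qᵀ = ε • Q) (hn : 2 ≤ Fintype.card n) :
    ∃ v : n → ℂ, v ≠ 0 ∧ v ⬝ᵥ Q *ᵥ v = 0 := by
  obtain ⟨i, j, hij⟩ := Fintype.exists_pair_of_one_lt_card (by omega : 1 < Fintype.card n)
  have hne : ∀ i : n, (Pi.single i 1 : n → ℂ) ≠ 0 := fun i h0 => by
    have h1 := congrFun h0 i
    rw [Pi.single_eq_same, Pi.zero_apply] at h1
    exact one_ne_zero h1
  rcases hε with rfl | rfl
  · by_cases h0 : Q i i = 0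
    · refine ⟨Pi.single i 1, hne i, ?_⟩
      rw [single_dotProduct, one_mul, Matrix.mulVec_single_one, Matrix.col_apply]
      exact h0
    · obtain ⟨s, hs⟩ := IsAlgClosed.exists_eq_mul_self (discrim (Q i i) (Q i j + Q j i) (Q j j))
      obtain ⟨t, ht⟩ := exists_quadratic_eq_zero h0 ⟨s, hs⟩
      refine ⟨Pi.single i t + Pi.single j 1, ?_, ?_⟩
      · intro h1
        have h2 := congrFun h1 j
        rw [Pi.add_apply, Pi.single_eq_same, Pi.single_eq_of_ne hij.symm, zero_add, Pi.zero_apply] at h2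
        exact one_ne_zero h2
      · rw [Matrix.mulVec_add, add_dotProduct, dotProduct_add, dotProduct_add]
        simp only [single_dotProduct, Matrix.mulVec_single, Matrix.col_apply, Pi.smul_apply, MulOpposite.smul_eq_mul_unop,
          MulOpposite.unop_op]
        linear_combination ht
  · refine ⟨Pi.single i 1, hne i, ?_⟩
    rw [single_dotProduct, one_mul, Matrix.mulVec_single_one, Matrix.col_apply]
    have h1 := congrFun (congrFun hQ i) i
    rw [Matrix.transpose_apply, Matrix.smul_apply, smul_eq_mul] at h1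
    linear_combination (1 / 2 : ℂ) * h1

/-- orthogonal and symplectic type -/
theorem spe_form43 (st : ∀ x ∈ L, xᴴ ∈ L)
    (irr : ∀ T : Matrix n n ℂ, (∀ x ∈ L, T * x = x * T) → ∃ c : ℂ, T = c • (1 : Matrix n n ℂ)) {Q Qi : Matrix n n ℂ}
    {ε : ℂ} (hε : ε = 1 ∨ ε = -1) (hQ : Qᵀ = ε • Q) (h1 : Q * Qi = 1) (hn : 2 ≤ Fintype.card n)
    (hsk : ∀ x : Matrix n n ℂ, xᵀ * Q + Q * x = 0 → x ∈ L) (hL : ∀ x ∈ L, ∃ c : ℂ, xᵀ * Q + Q * x = c • Q) :
    ∃ h ∈ L, hᴴ = h ∧ (∀ c : ℂ, h ≠ c • (1 : Matrix n n ℂ)) ∧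
      finrank ℂ L ≤ finrank ℂ (Ld L h 0) + 2 * (Fintype.card n - 1) := by
  have hn0 : 0 < Fintype.card n := by omega
  have hne : Nonempty n := Fintype.card_pos_iff.1 hn0
  have h2 : Qi * Q = 1 := mul_eq_one_comm.1 h1
  have hεε : ε * ε = 1 := by rcases hε with rfl | rfl <;> norm_num
  have hεs : star ε = ε := by rcases hε with rfl | rfl <;> simp
  have hε0 : ε ≠ 0 := by
    rintro rfl
    rw [zero_mul] at hεε
    exact zero_ne_one hεε
  obtain ⟨c, hc0, hcs, hc⟩ := unit_form43 st irr h1 hn0 hsk hL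
  obtain ⟨v, hv0, hv⟩ := exists_iso43 hε hQ hn
  obtain ⟨u, hu⟩ : ∃ u, u = star (Q *ᵥ v) := ⟨_, rfl⟩
  have hsu : star u = Q *ᵥ v := by rw [hu, star_star]
  have hc' : Q * Qᴴ = c • (1 : Matrix n n ℂ) := by
    have e1 : (c⁻¹ • Qᴴ) * Q = 1 := by rw [Matrix.smul_mul, hc, smul_smul, inv_mul_cancel₀ hc0, one_smul]
    have e2 := mul_eq_one_comm.1 e1
    rw [Matrix.mul_smul] at e2
    calc Q * Qᴴ = c • c⁻¹ • (Q * Qᴴ) := by rw [smul_smul, mul_inv_cancel₀ hc0, one_smul]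
      _ = _ := by rw [e2]
  have hQu : Q *ᵥ u = (ε * c) • star v := by
    have e1 : u = Qᵀᴴ *ᵥ star v := by
      rw [hu, Matrix.star_mulVec, ← Matrix.mulVec_transpose]
      congr 1
    rw [e1, hQ, Matrix.conjTranspose_smul, hεs, Matrix.mulVec_mulVec, Matrix.mul_smul, hc', smul_smul,
      Matrix.smul_mulVec, Matrix.one_mulVec]
  have hu0 : u ≠ 0 := by
    intro h0
    rw [h0, Matrix.mulVec_zero] at hQu
    rcases smul_eq_zero.1 hQu.symm with e1 | e1
    · exact mul_ne_zero hε0 hc0 e1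
    · exact hv0 (star_eq_zero.1 e1)
  have ha := vv_ne43 hv0
  have hb := vv_ne43 hu0
  have hvQ : v ᵥ* Q = ε • star u := by
    rw [← Matrix.mulVec_transpose, hQ, Matrix.smul_mulVec, hsu]
  have huQ : u ᵥ* Q = c • star v := by
    rw [← Matrix.mulVec_transpose, hQ, Matrix.smul_mulVec, hQu, smul_smul, ← mul_assoc, hεε, one_mul]
  have huv : star u ⬝ᵥ v = 0 := by rw [hsu, dotProduct_comm, hv]
  set hh : Matrix n n ℂ := vecMulVec v (star v) - c⁻¹ • vecMulVec u (star u) with hhd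
  have hhs : hhᵀ * Q + Q * hh = 0 := by
    rw [hhd, Matrix.transpose_sub, Matrix.transpose_smul, transpose_vecMulVec, transpose_vecMulVec, Matrix.sub_mul,
      Matrix.smul_mul, Matrix.mul_sub, Matrix.mul_smul, vecMulVec_mul, vecMulVec_mul, mul_vecMulVec, mul_vecMulVec, hvQ,
      huQ, hQu, ← hsu, vecMulVec_smul, vecMulVec_smul, smul_vecMulVec, smul_smul, smul_smul, inv_mul_cancel₀ hc0,
      show c⁻¹ * (ε * c) = ε by field_simp, one_smul]
    abel
  have hhv : hh *ᵥ v = (star v ⬝ᵥ v) • v := by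
    rw [hhd, Matrix.sub_mulVec, Matrix.smul_mulVec, vecMulVec_mulVec, vecMulVec_mulVec, huv, op_smul_eq_smul, op_smul_eq_smul, zero_smul, smul_zero, sub_zero]
  refine ⟨hh, hsk _ hhs, ?_, ?_, ?_⟩
  · rw [hhd, Matrix.conjTranspose_sub, Matrix.conjTranspose_smul, conjTranspose_vecMulVec, conjTranspose_vecMulVec,
      star_star, star_star, star_inv₀, hcs]
  · intro t ht
    have e1 : t = 0 := by
      rw [ht, Matrix.transpose_smul, Matrix.transpose_one, Matrix.smul_mul, Matrix.mul_smul, Matrix.one_mul,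
        Matrix.mul_one, ← add_smul] at hhs
      rcases smul_eq_zero.1 hhs with e2 | e2
      · linear_combination (1 / 2 : ℂ) * e2
      · exfalso
        rw [e2, Matrix.zero_mul] at h1
        exact zero_ne_one h1
    rw [e1, zero_smul] at ht
    rw [ht, Matrix.zero_mulVec] at hhv
    rcases smul_eq_zero.1 hhv.symm with e2 | e2
    · exact ha e2
    · exact hv0 e2
  · refine codim43 (φ1 := star v) (φ2 := star u) (by rwa [Ne, star_eq_zero]) (by rwa [Ne, star_eq_zero])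
      { toFun := fun x => ((star v ⬝ᵥ v) • ((x : Matrix n n ℂ) *ᵥ v) - (star v ⬝ᵥ (x : Matrix n n ℂ) *ᵥ v) • v,
          (star u ⬝ᵥ u) • ((x : Matrix n n ℂ) *ᵥ u) - (star u ⬝ᵥ (x : Matrix n n ℂ) *ᵥ u) • u)
        map_add' := fun x y => ?_
        map_smul' := fun c x => ?_ } ?_ ?_
    · refine Prod.ext ?_ ?_
      · change (star v ⬝ᵥ v) • (((x : Matrix n n ℂ) + (y : Matrix n n ℂ)) *ᵥ v) -
          (star v ⬝ᵥ ((x : Matrix n n ℂ) + (y : Matrix n n ℂ)) *ᵥ v) • v = _ + _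
        rw [Matrix.add_mulVec, dotProduct_add, smul_add, add_smul]
        exact add_sub_add_comm _ _ _ _
      · change (star u ⬝ᵥ u) • (((x : Matrix n n ℂ) + (y : Matrix n n ℂ)) *ᵥ u) -
          (star u ⬝ᵥ ((x : Matrix n n ℂ) + (y : Matrix n n ℂ)) *ᵥ u) • u = _ + _
        rw [Matrix.add_mulVec, dotProduct_add, smul_add, add_smul]
        exact add_sub_add_comm _ _ _ _
    · refine Prod.ext ?_ ?_
      · change (star v ⬝ᵥ v) • ((c • (x : Matrix n n ℂ)) *ᵥ v) - (star v ⬝ᵥ (c • (x : Matrix n n ℂ)) *ᵥ v) • v = c • _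
        rw [Matrix.smul_mulVec, dotProduct_smul, smul_sub, smul_eq_mul, smul_comm c, smul_smul c, smul_smul]
      · change (star u ⬝ᵥ u) • ((c • (x : Matrix n n ℂ)) *ᵥ u) - (star u ⬝ᵥ (c • (x : Matrix n n ℂ)) *ᵥ u) • u = c • _
        rw [Matrix.smul_mulVec, dotProduct_smul, smul_sub, smul_eq_mul, smul_comm c, smul_smul c, smul_smul]
    · intro x
      constructor
      · change star v ⬝ᵥ ((star v ⬝ᵥ v) • ((x : Matrix n n ℂ) *ᵥ v) - (star v ⬝ᵥ (x : Matrix n n ℂ) *ᵥ v) • v) = 0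
        rw [dotProduct_sub, dotProduct_smul, dotProduct_smul, smul_eq_mul, smul_eq_mul]
        ring
      · change star u ⬝ᵥ ((star u ⬝ᵥ u) • ((x : Matrix n n ℂ) *ᵥ u) - (star u ⬝ᵥ (x : Matrix n n ℂ) *ᵥ u) • u) = 0
        rw [dotProduct_sub, dotProduct_smul, dotProduct_smul, smul_eq_mul, smul_eq_mul]
        ring
    · intro x hx
      have e1 : (star v ⬝ᵥ v) • ((x : Matrix n n ℂ) *ᵥ v) - (star v ⬝ᵥ (x : Matrix n n ℂ) *ᵥ v) • v = 0 :=
        congrArg Prod.fst hx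
      have e2 : (star u ⬝ᵥ u) • ((x : Matrix n n ℂ) *ᵥ u) - (star u ⬝ᵥ (x : Matrix n n ℂ) *ᵥ u) • u = 0 :=
        congrArg Prod.snd hx
      obtain ⟨α, hα⟩ : ∃ α : ℂ, (x : Matrix n n ℂ) *ᵥ v = α • v := by
        refine ⟨(star v ⬝ᵥ v)⁻¹ * (star v ⬝ᵥ (x : Matrix n n ℂ) *ᵥ v), ?_⟩
        rw [mul_smul, ← sub_eq_zero.1 e1, smul_smul, inv_mul_cancel₀ ha, one_smul]
      obtain ⟨β, hβ⟩ : ∃ β : ℂ, (x : Matrix n n ℂ) *ᵥ u = β • u := by
        refine ⟨(star u ⬝ᵥ u)⁻¹ * (star u ⬝ᵥ (x : Matrix n n ℂ) *ᵥ u), ?_⟩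
        rw [mul_smul, ← sub_eq_zero.1 e2, smul_smul, inv_mul_cancel₀ hb, one_smul]
      obtain ⟨κ, hκ⟩ := hL _ x.2
      have hxT : (x : Matrix n n ℂ)ᵀ * Q = κ • Q - Q * (x : Matrix n n ℂ) := eq_sub_of_add_eq hκ
      have f1 : star u ᵥ* (x : Matrix n n ℂ) = (κ - α) • star u := by
        rw [← Matrix.mulVec_transpose, hsu, Matrix.mulVec_mulVec, hxT, Matrix.sub_mulVec, Matrix.smul_mulVec,
          ← Matrix.mulVec_mulVec, hα, Matrix.mulVec_smul, sub_smul]
      have f2 : star v ᵥ* (x : Matrix n n ℂ) = (κ - β) • star v := by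
        have g1 : (ε * c) • (star v ᵥ* (x : Matrix n n ℂ)) = (ε * c) • ((κ - β) • star v) := by
          rw [← Matrix.smul_vecMul, ← hQu, ← Matrix.mulVec_transpose, Matrix.mulVec_mulVec, hxT, Matrix.sub_mulVec,
            Matrix.smul_mulVec, ← Matrix.mulVec_mulVec, hβ, Matrix.mulVec_smul, hQu, ← sub_smul, smul_comm]
        exact smul_right_injective _ (mul_ne_zero hε0 hc0) g1
      have f3 : β = κ - α := by
        have g1 : star u ⬝ᵥ (x : Matrix n n ℂ) *ᵥ u = (κ - α) * (star u ⬝ᵥ u) := by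
          rw [dotProduct_mulVec, f1, smul_dotProduct, smul_eq_mul]
        rw [hβ, dotProduct_smul, smul_eq_mul] at g1
        exact mul_right_cancel₀ hb g1
      refine ⟨x.2, ?_⟩
      rw [Complex.ofReal_zero, zero_smul, hhd, Matrix.sub_mul, Matrix.mul_sub, Matrix.smul_mul, Matrix.mul_smul,
        mul_vecMulVec, vecMulVec_mul, mul_vecMulVec, vecMulVec_mul, f1, f2, hα, hβ, vecMulVec_smul, smul_vecMulVec,
        vecMulVec_smul, smul_vecMulVec, f3, sub_sub_cancel]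
      abel

end GH
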