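import Pool.Agent.Helper43.GH.Final
import Pool.Agent.Helper43.GP.FinN
import Pool.Agent.Helper48.GP.T3
import Pool.Agent.Helper98.GP.TyN

/-!
Project GP (MP_b8862a_ag): the data of the block theorems for the Galois group.
-/

set_option linter.unusedSectionVars false
set_option linter.unusedVariables false

open Matrix GH

namespace MH

variable {n : Type*} [Fintype n] [DecidableEq n]
variable {w : ℤ} {Q : Matrix n n ℚ} {S : Finset ℤ} {P : ℤ → Matrix n n ℂ} {Γ : Subgroup (GL n ℂ)}

/-- the condition on a block for the Hodge-Tate decomposition with the numbers of a conjugate -/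
theorem IsHTs.domR_one43 (H : IsHW w Q S P) {σ : ℂ ≃+* ℂ} {S' : Finset ℤ} {R : ℤ → Matrix n n ℂ}
    (hR : IsHTs w Q S P Γ σ S' R) {f : Matrix n n ℂ} (hf : IsBlk P f) (hd : DomB w Q S P (f.map σ.symm)) :
    DomR w Q P S' R f := by
  classical
  obtain ⟨f', hf'⟩ : ∃ f', f' = f.map σ.symm := ⟨_, rfl⟩
  have hB : IsBlk P f' := by rw [hf']; exact hf.aut σ.symm
  have hff : f = f'.map σ := by rw [hf', map_symmσ]
  have r0 : f.rank = f'.rank := by rw [hff]; exact rank_mapσ43 hB.idem σ
  have hcP : ∀ p, f' * P p = P p * f' := fun p => by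
    have h1 := EC_Pσ43 hB.mem (RingEquiv.refl ℂ) p
    have h2 : (P p).map (RingEquiv.refl ℂ) = P p := by ext i j; rfl
    rwa [h2] at h1
  have r1 : ∀ p, (f * R p).rank = (f' * P p).rank := by
    intro p
    rw [hR.rank f hf p, hff, ← map_mulσ]
    refine rank_mapσ43 ?_ σ
    calc f' * P p * (f' * P p) = f' * (P p * f') * P p := by simp only [mul_assoc]
      _ = f' * f' * (P p * P p) := by rw [← hcP]; simp only [mul_assoc]
      _ = _ := by rw [hB.idem, H.mul, if_pos rfl]
  rw [← hf'] at hd
  rcases hd with ⟨p, hp⟩ | ⟨m, hw2, hO, hM⟩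
  · left
    refine ⟨p, ?_⟩
    rw [r0, r1]
    exact hp
  · right
    refine ⟨m, hw2, ?_, ?_⟩
    · rw [hff]
      exact hO.aut σ
    · rcases hM with hM | hM
      · left
        have h1 : ∀ q, q ≠ m → f * R q = 0 := by
          intro q hq
          apply eq_zero_of_rank43
          rw [r1, ← hM, mul_assoc, H.mul, if_neg (Ne.symm hq), mul_zero, Matrix.rank_zero]
        have h2 : f = ∑ q ∈ S', f * R q := by rw [← Finset.mul_sum, hR.sum, mul_one]
        conv_rhs => rw [h2]
        by_cases hm : m ∈ S'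
        · rw [Finset.sum_eq_single m (fun q _ hq => h1 q hq) fun h => absurd hm h]
        · rw [hR.supp m hm, mul_zero]
          exact (Finset.sum_eq_zero fun q hq => h1 q fun h => hm (h ▸ hq)).symm
      · right
        have h1 : sB m S' R f = sB m S P f' := by
          unfold sB
          have e1 : ∑ p ∈ S'.filter (fun p => m < p), (f * R p).rank =
              ∑ p ∈ (S ∪ S').filter (fun p => m < p), (f * R p).rank := by
            refine Finset.sum_subset (Finset.filter_subset_filter _ Finset.subset_union_right) fun p hp hp' => ?_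
            have : p ∉ S' := fun h => hp' (Finset.mem_filter.2 ⟨h, (Finset.mem_filter.1 hp).2⟩)
            rw [hR.supp p this, mul_zero, Matrix.rank_zero]
          have e2 : ∑ p ∈ S.filter (fun p => m < p), (f' * P p).rank =
              ∑ p ∈ (S ∪ S').filter (fun p => m < p), (f' * P p).rank := by
            refine Finset.sum_subset (Finset.filter_subset_filter _ Finset.subset_union_left) fun p hp hp' => ?_
            have : p ∉ S := fun h => hp' (Finset.mem_filter.2 ⟨h, (Finset.mem_filter.1 hp).2⟩)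
            rw [H.supp p this, mul_zero, Matrix.rank_zero]
          rw [e1, e2]
          exact Finset.sum_congr rfl fun p _ => r1 p
        rw [h1, r1]
        exact hM

/-- the data of the block theorems -/
theorem IsGalN.toU (H : IsHW w Q S P) (G : IsGalN w Q S P Γ) (hT : IsTateN S P Γ) : IsGalU w Q S P Γ where
  sim := G.sim
  ss := hT.ss
  comm := G.comm H
  cent := G.cent H hT
  semi := hT.semi

/-- the ranks of the parts of a block and of its conjugate -/
theorem IsHW.rank_symm43 (H : IsHW w Q S P) {e : Matrix n n ℂ} (he : IsBlk P e) (σ : ℂ ≃+* ℂ) (p : ℤ) :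
    (e * (P p).map σ.symm).rank = (e.map σ * P p).rank := by
  have hB := he.aut σ
  have hcP : e.map σ * P p = P p * e.map σ := by
    have h1 := EC_Pσ43 hB.mem (RingEquiv.refl ℂ) p
    have h2 : (P p).map (RingEquiv.refl ℂ) = P p := by ext i j; rfl
    rwa [h2] at h1
  have h1 : (e.map σ * P p).map σ.symm = e * (P p).map σ.symm := by rw [map_mulσ, map_symmσ']
  rw [← h1]
  refine rank_mapσ43 ?_ σ.symm
  calc e.map σ * P p * (e.map σ * P p) = e.map σ * (P p * e.map σ) * P p := by simp only [mul_assoc]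
    _ = e.map σ * e.map σ * (P p * P p) := by rw [← hcP]; simp only [mul_assoc]
    _ = _ := by rw [hB.idem, H.mul, if_pos rfl]

/-- the blocks of the Galois group are of full type -/
theorem IsGalN.tyN43 (H : IsHW w Q S P) (G : IsGalN w Q S P Γ) (hT : IsTateN S P Γ)
    (hdom : ∀ e, IsBlk P e → DomN w Q S P e)
    (hgcd : ∀ e, IsBlk P e → e.rank ≠ 1 → ∃ σ : ℂ ≃+* ℂ, ∀ d : ℕ, (∀ p, d ∣ (e * (P p).map σ).rank) → d = 1) :
    ∀ e, IsBlk P e → ∀ (r : ℕ) (W : Matrix n (Fin r) ℂ) (V : Matrix (Fin r) n ℂ), V * W = 1 → W * V = e →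
      2 ≤ r → TyN (cpS W V (LG Γ)) := by
  intro e he r W V hVW hWV hr
  have hre : e.rank = r := blk_rank he hVW hWV
  rcases hdom e he with hall | ⟨σ, hd, hg⟩
  · obtain ⟨σ, hσ⟩ := hgcd e he (by omega)
    obtain ⟨S', R, hR⟩ := G.conj σ
    refine (G.toU H hT).tyN H he hVW hWV hr hR.toIsHTw (fun d hd => hσ d fun p => ?_) (hR.domR_one43 H he (hall σ.symm))
    rw [← hR.rank e he p]
    exact hd p
  · obtain ⟨S', R, hR⟩ := G.conj σ.symm
    refine (G.toU H hT).tyN H he hVW hWV hr hR.toIsHTw (fun d hd' => hg d fun p => ?_) (hR.domR_one43 H he hd)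
    rw [← H.rank_symm43 he, ← hR.rank e he p]
    exact hd' p

end MH
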